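import Pool.Agent.W707.TV.Main

/-! The final forms. -/

set_option autoImplicit false

namespace Pool.Agent.W707.TV

open Filter Finset EvenVol Pool.Agent.H112R4.VL Pool.Agent.W709.VC
open Pool.Agent.W709.RT (jt)
open scoped Real Topology

/-- from `M` to odd `r = 2 M + 1` -/
lemma tendsto_odd {F : ℕ → ℝ} {V : ℝ} (h : Tendsto (fun M : ℕ => F (2 * M + 1)) atTop (𝓝 V)) :
    Tendsto F (atTop ⊓ 𝓟 {r : ℕ | Odd r}) (𝓝 V) := by
  have h1 : Tendsto (fun r : ℕ => (r - 1) / 2) (atTop ⊓ 𝓟 {r : ℕ | Odd r}) atTop := by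
    refine Tendsto.mono_left ?_ inf_le_left
    refine tendsto_atTop.2 fun b => ?_
    filter_upwards [eventually_ge_atTop (2 * b + 1)] with r hr
    omega
  refine (h.comp h1).congr' ?_
  have h2 : ∀ᶠ r : ℕ in atTop ⊓ 𝓟 {r : ℕ | Odd r}, Odd r :=
    Filter.mem_inf_of_right (mem_principal_self _)
  filter_upwards [h2] with r hr
  obtain ⟨k, rfl⟩ := hr
  simp only [Function.comp_apply]
  congr 1
  omega

lemma vh_root (M : ℕ) :
    vh M = Complex.exp (2 * π * Complex.I / ((2 * M + 1 : ℕ) : ℂ)) := by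
  unfold vh Rh
  congr 1
  have h1 : ((2 * M + 1 : ℕ) : ℂ) ≠ 0 := by
    exact_mod_cast Nat.succ_ne_zero (2 * M)
  have h2 : (((M : ℝ) + 1 / 2 : ℝ) : ℂ) = ((2 * M + 1 : ℕ) : ℂ) / 2 := by
    push_cast
    ring
  rw [h2]
  field_simp

theorem jt_cont_odd (A : ℕ) {r i : ℕ} (hr : Odd r) (hi : i ≤ (r - 1) / 2) :
    ContinuousAt (jt A i) (Complex.exp (2 * π * Complex.I / r)) := by
  obtain ⟨M, rfl⟩ := hr
  rw [← vh_root]
  exact jt_contv A (by omega)

/-- the Chen-Yang volume conjecture -/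
theorem chen_yang {A : ℕ} (hA : 4 ≤ A) :
    ∃ V : ℝ, IsGreatest {W : ℝ | ∃ w, IsAngle A A w ∧ volw A A w = W} V ∧
      Tendsto (fun r : ℕ => 2 * π / ((r : ℝ) - 2) *
        Real.log ((2 * Real.sin (2 * π / r) / Real.sqrt r) ^ 2 *
          ∑ i ∈ Icc 1 ((r - 1) / 2),
            ‖br (Complex.exp (2 * π * Complex.I / r)) i / br (Complex.exp (2 * π * Complex.I / r)) 1 *
              jt A i (Complex.exp (2 * π * Complex.I / r))‖ ^ 2))
        (atTop ⊓ 𝓟 {r : ℕ | Odd r}) (𝓝 V) := by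
  obtain ⟨V, hV⟩ := eb
  refine ⟨V A, (hV A hA).1, ?_⟩
  refine tendsto_odd ?_
  refine (tv_growth' (hV A hA).2).congr fun M => ?_
  have h1 : (2 * M + 1 - 1) / 2 = M := by omega
  rw [h1, ← vh_root]
  rfl

end Pool.Agent.W707.TV
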