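import Pool.Agent.W707.TV.Gam
import Pool.Agent.W634.VC.Path

/-! Deformation of the contour. -/

set_option autoImplicit false

namespace Pool.Agent.W707.TV

open Filter Finset EvenVol Pool.Agent.H112R4.VL Pool.Agent.W709.VC
open scoped Real Topology

/-- the full product -/
noncomputable def FP (M : ℕ) (ψ : ℂ) : ℂ :=
  ∏ j ∈ range M, (2 * Complex.cos (ψ + π) - 2 * Complex.cos (zz (2 * M + 1) 2 j))

lemma FP_mul (M : ℕ) (ψ : ℂ) : FP M ψ * Complex.cos (ψ / 2) = Complex.sin (Rh M * (ψ + π)) := by
  have hsin : Complex.sin ((ψ + π) / 2) = Complex.cos (ψ / 2) := by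
    rw [show (ψ + π) / 2 = ψ / 2 + π / 2 by ring, Complex.sin_add_pi_div_two]
  rw [← hsin]
  exact prod_full M (ψ + π)

lemma sin_zero_of {ψ : ℂ} (hc : Complex.cos (ψ / 2) = 0) : Complex.sin ψ = 0 := by
  rw [show ψ = 2 * (ψ / 2) by ring, Complex.sin_two_mul, hc]
  ring

lemma Hint_eq (A M d : ℕ) (ψ : ℂ) : Hint A M d ψ =
    Complex.exp (Complex.I * A * Rh M * ψ ^ 2 / (4 * π)) * RH M d ψ * (2 * Complex.sin ψ) /
      FP M ψ := by
  unfold Hint
  rw [← FP_mul]
  by_cases hc : Complex.cos (ψ / 2) = 0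
  · rw [hc, sin_zero_of hc]
    simp
  · by_cases hF : FP M ψ = 0
    · rw [hF]
      simp
    · field_simp

lemma zz_real (M j : ℕ) : zz (2 * M + 1) 2 j = ((π * (2 * j + 1) / Rh M : ℝ) : ℂ) := by
  unfold zz
  rw [Complex.ofReal_div, Rhc]
  push_cast
  have : (2 * (M : ℂ) + 1) ≠ 0 := by
    have h : ((2 * M + 1 : ℕ) : ℂ) ≠ 0 := by
      have : (2 * M + 1 : ℕ) ≠ 0 := by omega
      exact_mod_cast this
    simpa using h
  field_simp

lemma FP_ne_im {M : ℕ} {ψ : ℂ} (h : ψ.im ≠ 0) : FP M ψ ≠ 0 := by
  unfold FP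
  rw [Finset.prod_ne_zero_iff]
  intro j _ h0
  rw [zz_real] at h0
  have h1 : Complex.cos (ψ + π) = Complex.cos ((π * (2 * j + 1) / Rh M : ℝ) : ℂ) := by
    linear_combination (1 / 2) * h0
  rw [Complex.cos_eq_cos_iff] at h1
  obtain ⟨k, hk⟩ := h1
  apply h
  rcases hk with hk | hk
  · have := congrArg Complex.im hk
    simp at this
    exact this.symm
  · have := congrArg Complex.im hk
    simp at this
    linarith

lemma cos_lt_one {M j : ℕ} (hj : j < M) : Real.cos (π * (2 * j + 1) / Rh M) < 1 := by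
  have h1 := zz_mem hj
  rw [zz_real, Complex.ofReal_re] at h1
  rcases lt_or_eq_of_le (Real.cos_le_one (π * (2 * j + 1) / Rh M)) with h | h
  · exact h
  · exfalso
    rw [Real.cos_eq_one_iff] at h
    obtain ⟨k, hk⟩ := h
    rw [← hk] at h1
    have hp := Real.pi_pos
    have h2 : (0 : ℝ) < k := by
      by_contra hc
      push Not at hc
      nlinarith [h1.1]
    have h3 : (k : ℝ) < 1 := by
      by_contra hc
      push Not at hc
      nlinarith [h1.2.1]
    have h2' : 0 < k := by exact_mod_cast h2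
    have h3' : k < 1 := by exact_mod_cast h3
    omega

lemma FP_vert (M : ℕ) (ψ : ℂ) (y : ℝ) (h : Complex.cos (ψ + π) = Real.cosh y) :
    FP M ψ ≠ 0 := by
  unfold FP
  rw [Finset.prod_ne_zero_iff]
  intro j hj h0
  rw [Finset.mem_range] at hj
  rw [zz_real, h, ← Complex.ofReal_cos] at h0
  have h1 : (2 * Real.cosh y - 2 * Real.cos (π * (2 * j + 1) / Rh M) : ℝ) = 0 := by
    exact_mod_cast h0
  have h2 := cos_lt_one hj
  have h3 := Real.one_le_cosh y
  linarith

lemma cos_right (y : ℝ) : Complex.cos ((π + y * Complex.I) + π) = Real.cosh y := by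
  rw [show ((π : ℂ) + y * Complex.I) + π = y * Complex.I + 2 * π by ring, Complex.cos_add_two_pi,
    Complex.cos_mul_I, Complex.ofReal_cosh]

lemma cos_left (y : ℝ) : Complex.cos ((-π + y * Complex.I) + π) = Real.cosh y := by
  rw [show (-(π : ℂ) + y * Complex.I) + π = y * Complex.I by ring,
    Complex.cos_mul_I, Complex.ofReal_cosh]

lemma Hint_diffAt (A M d : ℕ) {ψ : ℂ} (h : FP M ψ ≠ 0) : DifferentiableAt ℂ (Hint A M d) ψ := by
  have e : Hint A M d = fun ψ => Complex.exp (Complex.I * A * Rh M * ψ ^ 2 / (4 * π)) *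
      RH M d ψ * (2 * Complex.sin ψ) / FP M ψ := by
    funext ψ
    exact Hint_eq A M d ψ
  rw [e]
  apply DifferentiableAt.div
  · unfold RH
    fun_prop
  · unfold FP
    fun_prop
  · exact h

lemma RH_neg (M d : ℕ) (ψ : ℂ) : RH M d (-ψ) = RH M d ψ := by
  simp [RH, Complex.cos_neg]

lemma Hint_neg (A M d : ℕ) (ψ : ℂ) : Hint A M d (-ψ) = -Hint A M d ψ := by
  have h : FP M (-ψ) = FP M ψ := by
    unfold FP
    have : Complex.cos (-ψ + π) = Complex.cos (ψ + π) := by
      rw [Complex.cos_add_pi, Complex.cos_add_pi, Complex.cos_neg]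
    rw [this]
  rw [Hint_eq, Hint_eq, h, RH_neg, Complex.sin_neg, neg_sq]
  ring

theorem hpath : S_HPATH := by
  intro A M d _ h η b hh hη hb
  have hcr : Continuous fun y : ℝ => Hint A M d (π + y * Complex.I) := by
    rw [continuous_iff_continuousAt]
    intro y
    have := (Hint_diffAt A M d (FP_vert M _ y (cos_right y))).continuousAt
    exact ContinuousAt.comp (f := fun y : ℝ => (π + y * Complex.I : ℂ)) this (by fun_prop)
  rw [Pool.Agent.W634.VC.rect_eq (Hint A M d) (Hint_neg A M d) h hcr]
  have hline : Continuous fun x : ℝ => Hint A M d (x + h * Complex.I) := by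
    rw [continuous_iff_continuousAt]
    intro x
    have := (Hint_diffAt A M d (FP_ne_im (M := M) (ψ := x + h * Complex.I)
      (by simp [hh.ne']))).continuousAt
    exact ContinuousAt.comp (f := fun x : ℝ => (x + h * Complex.I : ℂ)) this (by fun_prop)
  have hsplit : (∫ x in (-π)..π, Hint A M d (x + h * Complex.I)) =
      (∫ x in (-π)..(-b), Hint A M d (x + h * Complex.I)) +
        ∫ x in (-b)..π, Hint A M d (x + h * Complex.I) :=
    (intervalIntegral.integral_add_adjacent_intervals (hline.intervalIntegrable _ _)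
      (hline.intervalIntegrable _ _)).symm
  have hcauchy := Complex.integral_boundary_rect_eq_zero_of_differentiableOn
    (Hint A M d) (-b + h * Complex.I) (π + η * Complex.I) (by
      intro z hz
      apply DifferentiableAt.differentiableWithinAt
      apply Hint_diffAt
      apply FP_ne_im
      have hz2 := hz.2
      simp only [Complex.add_im, Complex.neg_im, Complex.ofReal_im, Complex.mul_im,
        Complex.ofReal_re, Complex.I_im, Complex.I_re, Set.mem_preimage] at hz2
      have : z.im ∈ Set.uIcc h η := by simpa using hz2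
      rw [Set.uIcc_of_le hη] at this
      have := this.1
      linarith)
  simp only [Complex.add_re, Complex.neg_re, Complex.ofReal_re, Complex.mul_re, Complex.I_re,
    Complex.ofReal_im, Complex.I_im, Complex.add_im, Complex.neg_im, Complex.mul_im, mul_zero,
    mul_one, zero_mul, sub_zero, add_zero, zero_add, neg_zero, sub_self, smul_eq_mul,
    Complex.ofReal_neg] at hcauchy
  have hsplit2 : (∫ y in (0:ℝ)..η, Hint A M d (π + y * Complex.I)) =
      (∫ y in (0:ℝ)..h, Hint A M d (π + y * Complex.I)) +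
        ∫ y in h..η, Hint A M d (π + y * Complex.I) :=
    (intervalIntegral.integral_add_adjacent_intervals (hcr.intervalIntegrable _ _)
      (hcr.intervalIntegrable _ _)).symm
  unfold Pool.Agent.W709.VC.path
  rw [hsplit, hsplit2]
  linear_combination (-2) * hcauchy

end Pool.Agent.W707.TV
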