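import Pool.Agent.W709.VC.Low2

/-!
# Growth at the roots of unity `e^{2 π i / (M + 1/2)}`: definitions, task statements

`r = 2 M + 1`, `v = vh M = e^{2 π i / r} = e^{π i / (M + 1/2)}`, `Rh M = M + 1/2`.  The coloured
Jones polynomial of colour `i ≤ M` of `C(A,A)` is `JD A (-A) i (vh M)`.  All statements are the
analogues of those in `Pool.Agent.W709.VC.Defs`, with `Rh M` in the place of `N` and `n + d + 1 = M`.
-/

set_option autoImplicit false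

namespace Pool.Agent.W707.TV

open Filter Finset EvenVol Pool.Agent.H112R4.VL Pool.Agent.W709.VC
open scoped Real Topology

/-- `M + 1/2` -/
noncomputable def Rh (M : ℕ) : ℝ := M + 1 / 2

/-- `e^{2 π i / (2 M + 1)}` -/
noncomputable def vh (M : ℕ) : ℂ := Complex.exp (π * Complex.I / Rh M)

/-- `∏_{m=1}^d (-2 cos ψ - 2 cos (2 π m / (M + 1/2)))` -/
noncomputable def RH (M d : ℕ) (ψ : ℂ) : ℂ :=
  ∏ m ∈ range d, (-2 * Complex.cos ψ - 2 * (Real.cos (2 * π * (m + 1) / Rh M) : ℂ))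

/-- the integrand -/
noncomputable def Hint (A M d : ℕ) (ψ : ℂ) : ℂ :=
  Complex.exp (Complex.I * A * Rh M * ψ ^ 2 / (4 * π)) * RH M d ψ * (2 * Complex.sin ψ) *
    Complex.cos (ψ / 2) / Complex.sin (Rh M * (ψ + π))

/-- the twist coefficient at the root of unity, times a quantum factorial -/
noncomputable def Dn (A M n : ℕ) : ℝ := ‖brf (vh M) n‖ * ‖gamH (A : ℤ) (vh M) n‖

/-- the twist coefficient as a contour integral (no limit is needed at this root of unity) -/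
def S_HGAM : Prop := ∀ A M n : ℕ, n < M → ∀ h : ℝ, 0 < h →
  ‖gamH (A : ℤ) (vh M) n‖ = ‖brf (vh M) n‖ / (4 * π) *
    ‖rect (Hint A M (M - 1 - n)) (-π) π (-h) h‖

/-- deformation of the contour -/
def S_HPATH : Prop := ∀ A M d : ℕ, d < M → ∀ h η b : ℝ, 0 < h → h ≤ η → |b| ≤ π →
  rect (Hint A M d) (-π) π (-h) h = -2 * path (Hint A M d) h η b

/-- Riemann sums away from the real axis -/
def S_HRS : Prop := ∀ h H : ℝ, 0 < h → ∃ C : ℝ, ∀ M d : ℕ, d < M → ∀ b η : ℝ, h ≤ η → η ≤ H →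
  |Real.log ‖RH M d (-b + η * Complex.I) * (2 * Complex.cos ((-b + η * Complex.I) / 2))‖ -
    Rh M / (4 * π) * (Lf η (b + 2 * π * d / Rh M) - Lf η (b - 2 * π * d / Rh M))| ≤ C

/-- the factorials at the root of unity -/
def S_HBRF : Prop := ∀ ε : ℝ, 0 < ε → ∀ᶠ M : ℕ in atTop, ∀ n d : ℕ, n + d + 1 = M →
  |Real.log ‖brf (vh M) n‖ - Rh M / π * GapVol.lob (π * d / Rh M)| ≤ ε * M

/-- the vertical sides `Re ψ = ± π` -/
def S_HVERT : Prop := ∀ A : ℕ, ∀ ε : ℝ, 0 < ε → ∀ᶠ M : ℕ in atTop, ∀ n d : ℕ, n + d + 1 = M →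
  ∀ y : ℝ, 0 ≤ y →
    ‖brf (vh M) n‖ ^ 2 * ‖Hint A M d (π + y * Complex.I)‖ ≤ Real.sinh y * Real.exp (ε * M) ∧
    ‖brf (vh M) n‖ ^ 2 * ‖Hint A M d (-π + y * Complex.I)‖ ≤
      Real.sinh y * Real.exp (ε * M + A * Rh M * y / 2)

/-- small `n`: no growth -/
def S_HSMALL : Prop := ∀ A : ℕ, ∀ ε : ℝ, 0 < ε → ∀ᶠ M : ℕ in atTop, ∀ n : ℕ, 2 * n < M →
  ‖brf (vh M) n‖ * ‖gamH (A : ℤ) (vh M) n‖ ≤ Real.exp (ε * M)

/-- pointwise limit for the Laplace method -/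
def S_HLAP : Prop := ∀ (A : ℕ) (α b η : ℝ) (d : ℕ → ℕ), 4 ≤ A → Crit ((A : ℝ) / 2) α b η →
  (∀ M : ℕ, |2 * π * (d M) - α * Rh M| ≤ 2 * π) →
  ∃ c : ℂ, 0 < c.re ∧ ∀ s : ℝ, Tendsto (fun M : ℕ =>
    Hint A M (d M) (-b + s / (Real.sqrt M : ℝ) + η * Complex.I) /
      Hint A M (d M) (-b + η * Complex.I)) atTop (𝓝 (Complex.exp (-c * s ^ 2)))

/-- upper bound for the coefficients -/
def S_HUP : Prop := ∀ (A : ℕ) (α₀ b₀ η : ℝ), 4 ≤ A → Crit ((A : ℝ) / 2) α₀ b₀ η →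
  ∀ ε : ℝ, 0 < ε → ∀ᶠ M : ℕ in atTop, ∀ n, n < M → M ≤ 2 * n + 1 →
    Dn A M n ≤ Real.exp (M / (4 * π) * pot ((A : ℝ) / 2) α₀ b₀ η + ε * M)

/-- lower bound for one coefficient -/
def S_HLOW : Prop := ∀ (A : ℕ) (α₀ b₀ η : ℝ), 4 ≤ A → Crit ((A : ℝ) / 2) α₀ b₀ η →
  ∀ ε : ℝ, 0 < ε → ∀ᶠ M : ℕ in atTop, ∃ n, n < M ∧
    Real.exp (M / (4 * π) * pot ((A : ℝ) / 2) α₀ b₀ η - ε * M) ≤ Dn A M n

/-! ## Colours -/

/-- `∏_{j=1}^n |{i + j} {i - j}|` -/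
noncomputable def PC (M i n : ℕ) : ℝ :=
  ∏ j ∈ range n, ‖br (vh M) ((i : ℤ) + ((j : ℤ) + 1)) * br (vh M) ((i : ℤ) - ((j : ℤ) + 1))‖

/-- at the largest colour the factor is comparable to `‖{n}!‖ ^ 2`, and for large `n` it is the
largest one -/
def S_COLBIG : Prop := ∃ c : ℝ, 0 < c ∧ ∀ M i n : ℕ, n < i → i ≤ M →
  (M ≤ 2 * n → PC M i n ≤ ‖brf (vh M) n‖ ^ 2) ∧ c * ‖brf (vh M) n‖ ^ 2 ≤ PC M M n

/-- for small `n` a crude bound -/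
def S_COLSMALL : Prop := ∀ ε : ℝ, 0 < ε → ∀ᶠ M : ℕ in atTop, ∀ i n : ℕ, n < i → i ≤ M →
  2 * n < M → PC M i n ≤ ‖brf (vh M) n‖ ^ 2 *
    Real.exp (M / (2 * π) * (8 * GapVol.lob (π / 6)) + ε * M)

/-- the values of the coloured Jones polynomial as sums -/
def S_JSUM : Prop := ∀ A M i : ℕ, 1 ≤ i → i ≤ M →
  ‖JD (A : ℤ) (-(A : ℤ)) i (vh M)‖ ≤ ∑ n ∈ range i, PC M i n * ‖gamH (A : ℤ) (vh M) n‖ ^ 2 ∧
  (i = M → JD (A : ℤ) (-(A : ℤ)) M (vh M) =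
    ((∑ n ∈ range M, PC M M n * ‖gamH (A : ℤ) (vh M) n‖ ^ 2 : ℝ) : ℂ))

end Pool.Agent.W707.TV
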