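import Pool.Agent.W709.RT.Defs

/-! The (1,1)-tangle operators are diagonal (conservation of weight), and composition of tangles. -/

set_option autoImplicit false

namespace Pool.Agent.W707.TV

open Finset Matrix Pool.Agent.H550R3.Jones
open Pool.Agent.W709.RT (tang word cup cap)

/-- conservation of the sum of the indices -/
def Wt {N : ℕ} (A : Matrix (Fin N × Fin N) (Fin N × Fin N) ℂ) : Prop :=
  ∀ p q, A p q ≠ 0 → (p.1 : ℕ) + p.2 = q.1 + q.2

lemma wtP (N : ℕ) (v : ℂ) : Wt (crossP N v) := by
  intro p q h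
  by_contra hc
  apply h
  unfold crossP
  rw [if_neg]
  exact fun h2 => hc h2.1

lemma wtN (N : ℕ) (v : ℂ) : Wt (crossN N v) := by
  intro p q h
  by_contra hc
  apply h
  unfold crossN
  rw [if_neg]
  exact fun h2 => hc h2.1

lemma wt_gen {N : ℕ} {A : Matrix (Fin N × Fin N) (Fin N × Fin N) ℂ} (hA : Wt A) (k : ℕ)
    (s t : Fin 3 → Fin N) (h : gen A 3 k s t ≠ 0) :
    (s 0 : ℕ) + s 1 + s 2 = t 0 + t 1 + t 2 := by
  unfold gen at h
  by_cases hk : k + 1 < 3
  · rw [dif_pos hk] at h
    by_cases h1 : ∀ j : Fin 3, (j : ℕ) ≠ k → (j : ℕ) ≠ k + 1 → s j = t j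
    · rw [if_pos h1] at h
      have h2 := hA _ _ h
      have hk' : k = 0 ∨ k = 1 := by omega
      rcases hk' with rfl | rfl
      · have h3 := h1 2 (by decide) (by decide)
        have h4 : (s 0 : ℕ) + s 1 = t 0 + t 1 := h2
        rw [h3]
        omega
      · have h3 := h1 0 (by decide) (by decide)
        have h4 : (s 1 : ℕ) + s 2 = t 1 + t 2 := h2
        rw [h3]
        omega
    · rw [if_neg h1] at h
      exact absurd rfl h
  · rw [dif_neg hk] at h
    by_cases h1 : s = t
    · rw [h1]
    · rw [if_neg h1] at h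
      exact absurd rfl h

lemma wt_rep {N : ℕ} {P Q : Matrix (Fin N × Fin N) (Fin N × Fin N) ℂ} (hP : Wt P) (hQ : Wt Q)
    (w : List (ℕ × Bool)) : ∀ (s t : Fin 3 → Fin N), rep P Q 3 w s t ≠ 0 →
    (s 0 : ℕ) + s 1 + s 2 = t 0 + t 1 + t 2 := by
  induction w with
  | nil =>
    intro s t h
    unfold rep at h
    rw [List.map_nil, List.prod_nil] at h
    by_cases h1 : s = t
    · rw [h1]
    · exact absurd (Matrix.one_apply_ne h1) h
  | cons g w ih =>
    intro s t h
    have e : rep P Q 3 (g :: w) = gen (if g.2 then P else Q) 3 g.1 * rep P Q 3 w := by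
      unfold rep
      rw [List.map_cons, List.prod_cons]
    rw [e, Matrix.mul_apply] at h
    obtain ⟨u, _, hu⟩ := Finset.exists_ne_zero_of_sum_ne_zero h
    have h1 := left_ne_zero_of_mul hu
    have h2 := right_ne_zero_of_mul hu
    have h3 : (s 0 : ℕ) + s 1 + s 2 = u 0 + u 1 + u 2 := by
      refine wt_gen ?_ g.1 s u h1
      by_cases hg : g.2 = true
      · rw [if_pos hg]
        exact hP
      · rw [if_neg hg]
        exact hQ
    rw [h3]
    exact ih u t h2

/-- the operator of a (1,1)-tangle is diagonal -/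
theorem tang_diag {N : ℕ} (w : List (ℕ × Bool)) (v : ℂ) (i j : Fin N) (hij : i ≠ j) :
    tang N w v i j = 0 := by
  unfold tang
  apply Finset.sum_eq_zero
  intro p _
  apply Finset.sum_eq_zero
  intro q _
  by_contra h
  have h1 := left_ne_zero_of_mul h
  have hq := right_ne_zero_of_mul h
  have hp := left_ne_zero_of_mul h1
  have hr := right_ne_zero_of_mul h1
  have h2 : (p.1 : ℕ) + p.2 = N - 1 := by
    by_contra hc
    apply hp
    unfold cap
    rw [if_neg hc]
  have h3 : (q.1 : ℕ) + q.2 = N - 1 := by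
    by_contra hc
    apply hq
    unfold cup
    rw [if_neg hc]
  have h4 := wt_rep (wtP N v) (wtN N v) w _ _ hr
  have h5 : (p.1 : ℕ) + p.2 + i = j + q.1 + q.2 := h4
  apply hij
  apply Fin.ext
  omega

/-- composition of (1,1)-tangles (connected sum) -/
theorem prod_diag {N : ℕ} (l : List (List (ℕ × Bool))) (v : ℂ) (i : Fin N) :
    (l.map fun w => tang N w v).prod i i = (l.map fun w => tang N w v i i).prod := by
  induction l with
  | nil => simp
  | cons w l ih =>
    rw [List.map_cons, List.prod_cons, List.map_cons, List.prod_cons, Matrix.mul_apply,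
      Finset.sum_eq_single i, ih]
    · intro k _ hk
      rw [tang_diag w v i k (Ne.symm hk), zero_mul]
    · intro h
      exact absurd (Finset.mem_univ _) h

end Pool.Agent.W707.TV
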