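import Pool.Agent.W707.TV.Fin

/-! Exponential bounds are multiplicative. -/

set_option autoImplicit false

namespace Pool.Agent.W707.TV

open Filter Finset EvenVol Pool.Agent.H112R4.VL Pool.Agent.W709.VC
open scoped Real Topology

/-- growth rate `V` at the largest colour, and at most `V` for all colours -/
def EB (J : ℕ → ℕ → ℂ) (V : ℝ) : Prop :=
  (∀ ε : ℝ, 0 < ε → ∀ᶠ M : ℕ in atTop, ∀ i : ℕ, 1 ≤ i → i ≤ M →
    ‖J M i‖ ≤ Real.exp (M / (2 * π) * V + ε * M)) ∧
  (∀ ε : ℝ, 0 < ε → ∀ᶠ M : ℕ in atTop, Real.exp (M / (2 * π) * V - ε * M) ≤ ‖J M M‖)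

lemma EB_one : EB (fun _ _ => 1) 0 := by
  refine ⟨fun ε hε => Eventually.of_forall fun M i _ _ => ?_,
    fun ε hε => Eventually.of_forall fun M => ?_⟩
  · rw [norm_one, mul_zero, zero_add]
    exact Real.one_le_exp (by positivity)
  · rw [norm_one, mul_zero, zero_sub]
    exact Real.exp_le_one_iff.2 (by
      have : 0 ≤ ε * M := by positivity
      linarith)

lemma EB_mul {J K : ℕ → ℕ → ℂ} {V W : ℝ} (hJ : EB J V) (hK : EB K W) :
    EB (fun M i => J M i * K M i) (V + W) := by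
  refine ⟨fun ε hε => ?_, fun ε hε => ?_⟩
  · filter_upwards [hJ.1 (ε / 2) (by positivity), hK.1 (ε / 2) (by positivity)] with M h1 h2 i hi hiM
    rw [norm_mul]
    refine le_trans (mul_le_mul (h1 i hi hiM) (h2 i hi hiM) (norm_nonneg _) (Real.exp_pos _).le)
      (le_of_eq ?_)
    rw [← Real.exp_add]
    congr 1
    ring
  · filter_upwards [hJ.2 (ε / 2) (by positivity), hK.2 (ε / 2) (by positivity)] with M h1 h2
    rw [norm_mul]
    refine le_trans (le_of_eq ?_) (mul_le_mul h1 h2 (Real.exp_pos _).le (norm_nonneg _))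
    rw [← Real.exp_add]
    congr 1
    ring

lemma EB_list {ι : Type} (l : List ι) (J : ι → ℕ → ℕ → ℂ) (V : ι → ℝ)
    (h : ∀ a ∈ l, EB (J a) (V a)) :
    EB (fun M i => (l.map fun a => J a M i).prod) (l.map V).sum := by
  induction l with
  | nil => simpa using EB_one
  | cons a l ih =>
    simp only [List.map_cons, List.prod_cons, List.sum_cons]
    exact EB_mul (h a (List.mem_cons_self)) (ih fun b hb => h b (List.mem_cons_of_mem a hb))

/-- a polynomial factor does not matter -/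
lemma EB_of {J : ℕ → ℕ → ℂ} {V : ℝ}
    (h1 : ∀ ε : ℝ, 0 < ε → ∀ᶠ M : ℕ in atTop, ∀ i : ℕ, 1 ≤ i → i ≤ M →
      ‖J M i‖ ≤ M * Real.exp (M / (2 * π) * V + ε * M))
    (h2 : ∀ ε : ℝ, 0 < ε → ∀ᶠ M : ℕ in atTop, Real.exp (M / (2 * π) * V - ε * M) ≤ ‖J M M‖) :
    EB J V := by
  refine ⟨fun ε hε => ?_, h2⟩
  have h3 : ∀ᶠ M : ℕ in atTop, (M : ℝ) ≤ Real.exp (ε / 2 * M) := by
    have h4 := (Real.isLittleO_log_id_atTop.tendsto_div_nhds_zero).comp tendsto_natCast_atTop_atTop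
    filter_upwards [h4.eventually_lt_const (show 0 < ε / 2 by positivity),
      eventually_ge_atTop 1] with M h5 hM
    have hMp : (0 : ℝ) < M := by exact_mod_cast hM
    simp only [Function.comp_apply, id_eq] at h5
    rw [div_lt_iff₀ hMp] at h5
    calc (M : ℝ) = Real.exp (Real.log M) := (Real.exp_log hMp).symm
      _ ≤ _ := Real.exp_le_exp.2 h5.le
  filter_upwards [h1 (ε / 2) (by positivity), h3] with M k1 k2 i hi hiM
  refine le_trans (k1 i hi hiM) (le_trans (mul_le_mul_of_nonneg_right k2 (Real.exp_pos _).le)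
    (le_of_eq ?_))
  rw [← Real.exp_add]
  congr 1
  ring

theorem tv_growth' {V : ℝ} {J : ℕ → ℕ → ℂ} (h : EB J V) :
    Tendsto (fun M : ℕ => 2 * π / (((2 * M + 1 : ℕ) : ℝ) - 2) * Real.log (tvs (J M) M)) atTop
      (𝓝 V) := by
  refine tv_growth J (fun ε hε => ?_) h.2
  filter_upwards [h.1 ε hε, eventually_ge_atTop 1] with M h1 hM i hi hiM
  have hMp : (1 : ℝ) ≤ M := by exact_mod_cast hM
  exact le_trans (h1 i hi hiM) (le_mul_of_one_le_left (Real.exp_pos _).le hMp)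

theorem top_growth' {V : ℝ} {J : ℕ → ℕ → ℂ} (h : EB J V) :
    Tendsto (fun M : ℕ => 2 * π / ((M : ℝ) + 1 / 2) *
      Real.log ‖br (vh M) M / br (vh M) 1 * J M M‖) atTop (𝓝 V) := by
  refine top_growth (fun M => J M M) (fun ε hε => ?_) h.2
  filter_upwards [h.1 ε hε, eventually_ge_atTop 1] with M h1 hM
  have hMp : (1 : ℝ) ≤ M := by exact_mod_cast hM
  exact le_trans (h1 M hM le_rfl) (le_mul_of_one_le_left (Real.exp_pos _).le hMp)

/-- the norm of the knot state -/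
theorem state_growth {V : ℝ} {J : ℕ → ℕ → ℂ} (h : EB J V) :
    Tendsto (fun M : ℕ => 2 * π / M * Real.log (Real.sqrt (tvs (J M) M))) atTop (𝓝 V) := by
  have h1 := tv_growth' h
  have h2 : Tendsto (fun M : ℕ => (1 : ℝ) - 1 / 2 / M) atTop (𝓝 (1 - 0)) :=
    tendsto_const_nhds.sub (tendsto_const_div_atTop_nhds_zero_nat _)
  have h3 := h2.mul h1
  rw [sub_zero, one_mul] at h3
  refine h3.congr' ?_
  filter_upwards [eventually_ge_atTop 1] with M hM
  have hMp : (1 : ℝ) ≤ M := by exact_mod_cast hM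
  have h5 : (M : ℝ) ≠ 0 := by positivity
  have h6 : (2 * (M : ℝ) - 1) ≠ 0 := by
    have : 0 < 2 * (M : ℝ) - 1 := by linarith
    exact this.ne'
  have h0 : 0 ≤ tvs (J M) M := by
    unfold tvs
    exact mul_nonneg (sq_nonneg _) (Finset.sum_nonneg fun _ _ => by positivity)
  have h7 : ((2 * M + 1 : ℕ) : ℝ) - 2 = 2 * M - 1 := by
    push_cast
    ring
  have h8 : (1 : ℝ) - 1 / 2 / M = (2 * M - 1) / (2 * M) := by
    field_simp
  rw [Real.log_sqrt h0, h7, h8]
  field_simp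

end Pool.Agent.W707.TV
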