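import Pool.Agent.W707.TV.Gam
import Pool.Agent.W709.RT.Full

/-! The R-matrix invariant at `e^{π i/(M+1/2)}`. -/

set_option autoImplicit false

namespace Pool.Agent.W707.TV

open Filter Finset EvenVol Pool.Agent.H112R4.VL Pool.Agent.W709.VC
open Pool.Agent.W709.RT (jt tang tang_off tang_cont)
open scoped Real Topology

lemma vh_norm (M : ℕ) : ‖vh M‖ = 1 := by
  unfold vh
  have : (π : ℂ) * Complex.I / Rh M = ((π / Rh M : ℝ) : ℂ) * Complex.I := by
    push_cast
    ring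
  rw [this, Complex.norm_exp_ofReal_mul_I]

lemma br_cont (M : ℕ) (k : ℤ) : ContinuousAt (fun v => br v k) (vh M) :=
  (TE.br_diff k (vh_ne M)).continuousAt

lemma brf_cont (M n : ℕ) : ContinuousAt (fun v => brf v n) (vh M) :=
  (TE.brf_diff n (vh_ne M)).continuousAt

lemma gamH_cont (a : ℤ) {M n : ℕ} (hn : n < M) : ContinuousAt (fun v => gamH a v n) (vh M) := by
  unfold gamH
  refine tendsto_finsetSum _ fun k hk => ?_
  rw [Finset.mem_range] at hk
  have hd : brf (vh M) (n - k) * brf (vh M) (n + k + 1) ≠ 0 :=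
    mul_ne_zero (brf_vh_ne (by omega)) (brf_vh_ne (by omega))
  refine (continuousAt_const.mul ((brf_cont M n).div ((brf_cont M _).mul (brf_cont M _)) hd)).mul
    (ContinuousAt.mul ?_ (br_cont M _))
  have h3 : ContinuousAt (fun v : ℂ => (-1 : ℂ) ^ k * v ^ (k * (k + 1))) (vh M) :=
    continuousAt_const.mul (continuousAt_id.pow _)
  exact h3.zpow₀ _ (Or.inl (mul_ne_zero (pow_ne_zero _ (by norm_num)) (pow_ne_zero _ (vh_ne M))))

lemma JD_cont (a b : ℤ) {M i : ℕ} (hi : i ≤ M) : ContinuousAt (JD a b i) (vh M) := by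
  unfold JD
  refine tendsto_finsetSum _ fun n hn => ?_
  rw [Finset.mem_range] at hn
  refine ContinuousAt.mul (ContinuousAt.mul continuousAt_const ?_)
    ((gamH_cont a (by omega)).mul (gamH_cont b (by omega)))
  exact tendsto_finsetProd _ fun j _ => (br_cont M _).mul (br_cont M _)

theorem jt_contv (A : ℕ) {M i : ℕ} (hi : i ≤ M) : ContinuousAt (jt A i) (vh M) := by
  unfold jt
  by_cases h : 0 < i
  · simp only [dif_pos h]
    refine tang_cont (vh_ne M) (fun k h0 hk => ?_) _ _ _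
    exact br_vh_ne (M := M) (k := (k : ℤ)) (by omega) (by omega)
  · simp only [dif_neg h]
    exact continuousAt_const

/-- the R-matrix invariant is given by the sum over the twist regions -/
theorem jt_vh (A : ℕ) {M i : ℕ} (h0 : 0 < i) (hi : i ≤ M) :
    jt A i (vh M) = JD (A : ℤ) (-(A : ℤ)) i (vh M) := by
  have hne : (𝓝[{v : ℂ | ‖v‖ ≠ 1}] (vh M)).NeBot := by
    rw [← mem_closure_iff_nhdsWithin_neBot, Metric.mem_closure_iff]
    intro ε hε
    refine ⟨((1 + ε / 2 : ℝ) : ℂ) * vh M, ?_, ?_⟩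
    · simp only [Set.mem_ofPred_eq, norm_mul, vh_norm, mul_one, Complex.norm_real, Real.norm_eq_abs]
      rw [abs_of_pos (by linarith)]
      linarith
    · rw [dist_eq_norm]
      have : vh M - ((1 + ε / 2 : ℝ) : ℂ) * vh M = ((-(ε / 2) : ℝ) : ℂ) * vh M := by
        push_cast
        ring
      rw [this, norm_mul, vh_norm, mul_one, Complex.norm_real, Real.norm_eq_abs, abs_neg,
        abs_of_pos (by linarith)]
      linarith
  have h1 : Tendsto (JD (A : ℤ) (-(A : ℤ)) i) (𝓝[{v : ℂ | ‖v‖ ≠ 1}] (vh M))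
      (𝓝 (JD (A : ℤ) (-(A : ℤ)) i (vh M))) := (JD_cont _ _ hi).mono_left nhdsWithin_le_nhds
  have h2 : Tendsto (jt A i) (𝓝[{v : ℂ | ‖v‖ ≠ 1}] (vh M)) (𝓝 (jt A i (vh M))) :=
    (jt_contv A hi).mono_left nhdsWithin_le_nhds
  have h3 : JD (A : ℤ) (-(A : ℤ)) i =ᶠ[𝓝[{v : ℂ | ‖v‖ ≠ 1}] (vh M)] jt A i := by
    have hv0 : ∀ᶠ v in 𝓝[{v : ℂ | ‖v‖ ≠ 1}] (vh M), v ≠ 0 :=
      nhdsWithin_le_nhds (isOpen_ne.mem_nhds (vh_ne M))
    filter_upwards [self_mem_nhdsWithin, hv0] with v hv hv'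
    unfold jt
    rw [dif_pos h0, tang_off hv' hv h0]
  exact tendsto_nhds_unique h2 (h1.congr' h3)

end Pool.Agent.W707.TV
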