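import Pool.Agent.W707.TV.Low
import Pool.Agent.W707.TV.RTJ

/-! Growth of the coloured Jones polynomial and of the Turaev-Viro invariant. -/

set_option autoImplicit false

namespace Pool.Agent.W707.TV

open Filter Finset EvenVol Pool.Agent.H112R4.VL Pool.Agent.W709.VC
open scoped Real Topology

lemma PC_nonneg (M i n : ℕ) : 0 ≤ PC M i n := by
  unfold PC
  positivity

/-- upper bound for all colours -/
theorem J_le (hS : S_HSMALL) (hUp : S_HUP) (hCB : S_COLBIG) (hCS : S_COLSMALL) (hJ : S_JSUM)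
    {A : ℕ} (hA : 4 ≤ A) {α₀ b₀ η : ℝ} (hC : Crit ((A : ℝ) / 2) α₀ b₀ η)
    (hV : 8 * GapVol.lob (π / 6) ≤ pot ((A : ℝ) / 2) α₀ b₀ η) {ε : ℝ} (hε : 0 < ε) :
    ∀ᶠ M : ℕ in atTop, ∀ i : ℕ, 1 ≤ i → i ≤ M →
      ‖JD (A : ℤ) (-(A : ℤ)) i (vh M)‖ ≤
        M * Real.exp (M / (2 * π) * pot ((A : ℝ) / 2) α₀ b₀ η + ε * M) := by
  have hp := Real.pi_pos
  set V := pot ((A : ℝ) / 2) α₀ b₀ η with hVd
  obtain ⟨c, hc, hCB⟩ := hCB
  filter_upwards [hS A (ε / 3) (by positivity), hUp A α₀ b₀ η hA hC (ε / 3) (by positivity),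
    hCS (ε / 3) (by positivity), eventually_ge_atTop 1] with M h1 h2 h3 hM1 i hi1 hiM
  have hMp : (0 : ℝ) < M := by exact_mod_cast hM1
  refine le_trans (hJ A M i hi1 hiM).1 ?_
  have hterm : ∀ n ∈ range i, PC M i n * ‖gamH (A : ℤ) (vh M) n‖ ^ 2 ≤
      Real.exp (M / (2 * π) * V + ε * M) := by
    intro n hn
    rw [Finset.mem_range] at hn
    have hP0 := PC_nonneg M i n
    rcases Nat.lt_or_ge (2 * n) M with hs | hs
    · have k1 := h3 i n hn hiM hs
      have k2 := h1 n hs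
      have k3 : (‖brf (vh M) n‖ * ‖gamH (A : ℤ) (vh M) n‖) ^ 2 ≤ Real.exp (ε / 3 * M) ^ 2 :=
        pow_le_pow_left₀ (by positivity) k2 2
      calc PC M i n * ‖gamH (A : ℤ) (vh M) n‖ ^ 2 ≤
          (‖brf (vh M) n‖ ^ 2 * Real.exp (M / (2 * π) * (8 * GapVol.lob (π / 6)) + ε / 3 * M)) *
            ‖gamH (A : ℤ) (vh M) n‖ ^ 2 := mul_le_mul_of_nonneg_right k1 (by positivity)
        _ = (‖brf (vh M) n‖ * ‖gamH (A : ℤ) (vh M) n‖) ^ 2 *
            Real.exp (M / (2 * π) * (8 * GapVol.lob (π / 6)) + ε / 3 * M) := by ring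
        _ ≤ Real.exp (ε / 3 * M) ^ 2 *
            Real.exp (M / (2 * π) * (8 * GapVol.lob (π / 6)) + ε / 3 * M) :=
            mul_le_mul_of_nonneg_right k3 (Real.exp_pos _).le
        _ = Real.exp (M / (2 * π) * (8 * GapVol.lob (π / 6)) + ε * M) := by
            rw [← Real.exp_nat_mul, ← Real.exp_add]
            congr 1
            push_cast
            ring
        _ ≤ _ := by
            apply Real.exp_le_exp.2
            have := mul_le_mul_of_nonneg_left hV (show 0 ≤ (M : ℝ) / (2 * π) by positivity)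
            linarith
    · have k1 := (hCB M i n hn hiM).1 hs
      have k2 := h2 n (by omega) (by omega)
      have hD0 : 0 ≤ Dn A M n := by unfold Dn; positivity
      have k3 := pow_le_pow_left₀ hD0 k2 2
      calc PC M i n * ‖gamH (A : ℤ) (vh M) n‖ ^ 2 ≤
          ‖brf (vh M) n‖ ^ 2 * ‖gamH (A : ℤ) (vh M) n‖ ^ 2 :=
            mul_le_mul_of_nonneg_right k1 (by positivity)
        _ = Dn A M n ^ 2 := by unfold Dn; ring
        _ ≤ Real.exp (M / (4 * π) * V + ε / 3 * M) ^ 2 := k3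
        _ = Real.exp (M / (2 * π) * V + 2 * (ε / 3) * M) := by
            rw [← Real.exp_nat_mul]
            congr 1
            push_cast
            field_simp
            ring
        _ ≤ _ := by
            apply Real.exp_le_exp.2
            have : 0 ≤ ε / 3 * M := by positivity
            linarith
  calc ∑ n ∈ range i, PC M i n * ‖gamH (A : ℤ) (vh M) n‖ ^ 2 ≤
      ∑ _n ∈ range i, Real.exp (M / (2 * π) * V + ε * M) := Finset.sum_le_sum hterm
    _ = i * Real.exp (M / (2 * π) * V + ε * M) := by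
        rw [Finset.sum_const, Finset.card_range, nsmul_eq_mul]
    _ ≤ _ := by
        apply mul_le_mul_of_nonneg_right _ (Real.exp_pos _).le
        exact_mod_cast hiM

/-- lower bound for the largest colour -/
theorem J_ge (hLow : S_HLOW) (hCB : S_COLBIG) (hJ : S_JSUM)
    {A : ℕ} (hA : 4 ≤ A) {α₀ b₀ η : ℝ} (hC : Crit ((A : ℝ) / 2) α₀ b₀ η) {ε : ℝ} (hε : 0 < ε) :
    ∀ᶠ M : ℕ in atTop, Real.exp (M / (2 * π) * pot ((A : ℝ) / 2) α₀ b₀ η - ε * M) ≤
      ‖JD (A : ℤ) (-(A : ℤ)) M (vh M)‖ := by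
  have hp := Real.pi_pos
  set V := pot ((A : ℝ) / 2) α₀ b₀ η with hVd
  obtain ⟨c, hc, hCB⟩ := hCB
  have e1 : ∀ᶠ M : ℕ in atTop, 1 / c ≤ Real.exp (ε / 2 * M) := by
    have : Tendsto (fun N : ℕ => Real.exp (ε / 2 * (N : ℝ))) atTop atTop :=
      Real.tendsto_exp_atTop.comp
        (Tendsto.const_mul_atTop (by positivity) tendsto_natCast_atTop_atTop)
    exact this.eventually_ge_atTop _
  filter_upwards [hLow A α₀ b₀ η hA hC (ε / 4) (by positivity), e1, eventually_ge_atTop 1]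
    with M h1 h2 hM1
  have hMp : (0 : ℝ) < M := by exact_mod_cast hM1
  obtain ⟨n, hn, h3⟩ := h1
  have hsum := (hJ A M M hM1 le_rfl).2 rfl
  have hnn : ∀ k ∈ range M, 0 ≤ PC M M k * ‖gamH (A : ℤ) (vh M) k‖ ^ 2 := fun k _ =>
    mul_nonneg (PC_nonneg M M k) (by positivity)
  rw [hsum, Complex.norm_real, Real.norm_eq_abs, abs_of_nonneg (Finset.sum_nonneg hnn)]
  have k1 := (hCB M M n hn le_rfl).2
  have k2 : c * Dn A M n ^ 2 ≤ ∑ k ∈ range M, PC M M k * ‖gamH (A : ℤ) (vh M) k‖ ^ 2 := by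
    calc c * Dn A M n ^ 2 = (c * ‖brf (vh M) n‖ ^ 2) * ‖gamH (A : ℤ) (vh M) n‖ ^ 2 := by
          unfold Dn
          ring
      _ ≤ PC M M n * ‖gamH (A : ℤ) (vh M) n‖ ^ 2 := mul_le_mul_of_nonneg_right k1 (by positivity)
      _ ≤ _ := Finset.single_le_sum hnn (Finset.mem_range.2 hn)
  refine le_trans ?_ k2
  have k3 : Real.exp (M / (4 * π) * V - ε / 4 * M) ^ 2 ≤ Dn A M n ^ 2 :=
    pow_le_pow_left₀ (Real.exp_pos _).le h3 2
  have k4 : Real.exp (M / (4 * π) * V - ε / 4 * M) ^ 2 =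
      Real.exp (M / (2 * π) * V - ε / 2 * M) := by
    rw [← Real.exp_nat_mul]
    congr 1
    push_cast
    field_simp
    ring
  have k5 : Real.exp (M / (2 * π) * V - ε * M) * Real.exp (ε / 2 * M) =
      Real.exp (M / (2 * π) * V - ε / 2 * M) := by
    rw [← Real.exp_add]
    congr 1
    ring
  rw [k4] at k3
  have k6 : 1 ≤ c * Real.exp (ε / 2 * M) := by
    rw [div_le_iff₀ hc] at h2
    linarith
  calc Real.exp (M / (2 * π) * V - ε * M) ≤
      Real.exp (M / (2 * π) * V - ε * M) * (c * Real.exp (ε / 2 * M)) :=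
        le_mul_of_one_le_right (Real.exp_pos _).le k6
    _ = c * Real.exp (M / (2 * π) * V - ε / 2 * M) := by
        rw [← k5]
        ring
    _ ≤ _ := mul_le_mul_of_nonneg_left k3 hc.le

/-- from two-sided exponential bounds to the limit -/
lemma log_limit {f : ℕ → ℝ} {V t : ℝ} {s : ℕ → ℝ} (P : ℕ → ℝ) (hP : ∀ᶠ M in atTop, 0 < P M)
    (hPl : Tendsto (fun M : ℕ => Real.log (P M) / M) atTop (𝓝 0))
    (hs : Tendsto (fun M : ℕ => s M * M) atTop (𝓝 t))
    (hup : ∀ ε : ℝ, 0 < ε → ∀ᶠ M : ℕ in atTop, f M ≤ P M * Real.exp (M * V + ε * M))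
    (hlo : ∀ ε : ℝ, 0 < ε → ∀ᶠ M : ℕ in atTop, (P M)⁻¹ * Real.exp (M * V - ε * M) ≤ f M) :
    Tendsto (fun M : ℕ => s M * Real.log (f M)) atTop (𝓝 (t * V)) := by
  have h1 : Tendsto (fun M : ℕ => Real.log (f M) / M) atTop (𝓝 V) := by
    rw [Metric.tendsto_nhds]
    intro δ hδ
    have hPs : ∀ᶠ M : ℕ in atTop, |Real.log (P M) / M| < δ / 2 := by
      have := (Metric.tendsto_nhds.1 hPl) (δ / 2) (by positivity)
      filter_upwards [this] with M hM
      rwa [Real.dist_eq, sub_zero] at hM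
    filter_upwards [hup (δ / 4) (by positivity), hlo (δ / 4) (by positivity), hP, hPs,
      eventually_ge_atTop 1] with M h1 h2 h3 h4 hM1
    have hMp : (0 : ℝ) < M := by exact_mod_cast hM1
    have hf : 0 < f M := lt_of_lt_of_le (by positivity) h2
    have l1 : Real.log (f M) ≤ Real.log (P M) + (M * V + δ / 4 * M) := by
      rw [← Real.log_exp (M * V + δ / 4 * M), ← Real.log_mul h3.ne' (Real.exp_ne_zero _)]
      exact Real.log_le_log hf h1
    have l2 : -Real.log (P M) + (M * V - δ / 4 * M) ≤ Real.log (f M) := by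
      rw [← Real.log_exp (M * V - δ / 4 * M), ← Real.log_inv,
        ← Real.log_mul (inv_ne_zero h3.ne') (Real.exp_ne_zero _)]
      exact Real.log_le_log (by positivity) h2
    rw [abs_lt] at h4
    have m1 : -(δ / 2) * M < Real.log (P M) := by
      have := (lt_div_iff₀ hMp).1 h4.1
      linarith
    have m2 : Real.log (P M) < δ / 2 * M := by
      have := (div_lt_iff₀ hMp).1 h4.2
      linarith
    rw [Real.dist_eq, abs_lt]
    constructor
    · rw [lt_sub_iff_add_lt, lt_div_iff₀ hMp]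
      nlinarith
    · rw [sub_lt_iff_lt_add, div_lt_iff₀ hMp]
      nlinarith
  have h2 := hs.mul h1
  refine h2.congr' ?_
  filter_upwards [eventually_ge_atTop 1] with M hM1
  have hMp : (M : ℝ) ≠ 0 := by
    have : M ≠ 0 := by omega
    exact_mod_cast this
  field_simp

lemma log_poly (k : ℕ) : Tendsto (fun M : ℕ => Real.log (((2 * M + 1 : ℕ) : ℝ) ^ k) / M) atTop
    (𝓝 0) := by
  have h1 : Tendsto (fun x : ℝ => Real.log x / x) atTop (𝓝 0) :=
    Real.isLittleO_log_id_atTop.tendsto_div_nhds_zero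
  have h2 : Tendsto (fun M : ℕ => ((2 * M + 1 : ℕ) : ℝ)) atTop atTop := by
    refine tendsto_natCast_atTop_atTop.comp ?_
    exact tendsto_atTop_mono (fun M => by show M ≤ 2 * M + 1; omega) tendsto_id
  have h3 := h1.comp h2
  have h4 : Tendsto (fun M : ℕ => ((2 * M + 1 : ℕ) : ℝ) / M) atTop (𝓝 2) := by
    have h5 : Tendsto (fun M : ℕ => (2 : ℝ) + 1 / M) atTop (𝓝 (2 + 0)) :=
      tendsto_const_nhds.add tendsto_one_div_atTop_nhds_zero_nat
    rw [add_zero] at h5
    refine h5.congr' ?_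
    filter_upwards [eventually_gt_atTop 0] with M hM
    have : (M : ℝ) ≠ 0 := by exact_mod_cast hM.ne'
    push_cast
    field_simp
  have h6 := (h3.mul h4).const_mul (k : ℝ)
  rw [zero_mul, mul_zero] at h6
  refine h6.congr' ?_
  filter_upwards [eventually_gt_atTop 0] with M hM
  have h7 : (M : ℝ) ≠ 0 := by exact_mod_cast hM.ne'
  have h8 : ((2 * M + 1 : ℕ) : ℝ) ≠ 0 := by positivity
  simp only [Function.comp_apply]
  rw [Real.log_pow]
  field_simp

lemma sin_low {M : ℕ} (hM : 2 ≤ M) : 2 / Rh M ≤ Real.sin (π / Rh M) := by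
  have hp := Real.pi_pos
  have hR := Rh_pos M
  have hM' : (2 : ℝ) ≤ M := by exact_mod_cast hM
  have h2 : π / Rh M ≤ π / 2 := by
    apply div_le_div_of_nonneg_left hp.le (by norm_num)
    linarith [Rh_le M]
  have h1 := Real.mul_le_sin (x := π / Rh M) (by positivity) h2
  have e : 2 / π * (π / Rh M) = 2 / Rh M := by
    field_simp
  rwa [e] at h1

/-- quantum integers -/
lemma br_norm (M : ℕ) (k : ℕ) : ‖br (vh M) k‖ = 2 * |Real.sin (π * k / Rh M)| := by
  rw [br_vh, norm_mul, norm_mul, Complex.norm_I, mul_one, Complex.norm_real, Real.norm_eq_abs,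
    Int.cast_natCast, Complex.norm_ofNat]

/-- the quantum integer `[i]` -/
noncomputable def qi (M i : ℕ) : ℝ := ‖br (vh M) i / br (vh M) 1‖

lemma qi_eq {M : ℕ} (i : ℕ) : qi M i = |Real.sin (π * i / Rh M)| / |Real.sin (π / Rh M)| := by
  unfold qi
  have h1 := br_norm M i
  have h2 := br_norm M 1
  rw [Nat.cast_one, Nat.cast_one, mul_one] at h2
  rw [norm_div, h1, h2, mul_div_mul_left _ _ two_ne_zero]

lemma qi_le {M : ℕ} (hM : 2 ≤ M) (i : ℕ) : qi M i ≤ ((2 * M + 1 : ℕ) : ℝ) := by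
  have hR := Rh_pos M
  have h1 := sin_low hM
  have h2 : 0 < Real.sin (π / Rh M) := lt_of_lt_of_le (by positivity) h1
  rw [qi_eq, abs_of_pos h2, div_le_iff₀ h2]
  have h3 : ((2 * M + 1 : ℕ) : ℝ) * (2 / Rh M) = 4 := by
    rw [← Rh_two]
    field_simp
    norm_num
  have h4 : ((2 * M + 1 : ℕ) : ℝ) * (2 / Rh M) ≤ ((2 * M + 1 : ℕ) : ℝ) * Real.sin (π / Rh M) :=
    mul_le_mul_of_nonneg_left h1 (by positivity)
  have h5 := Real.abs_sin_le_one (π * i / Rh M)
  linarith

lemma qi_top {M : ℕ} (hM : 2 ≤ M) : 1 / 2 ≤ qi M M ∧ qi M M ≤ 1 := by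
  have hp := Real.pi_pos
  have hR := Rh_pos M
  have hM' : (2 : ℝ) ≤ M := by exact_mod_cast hM
  have h1 := sin_low hM
  have h2 : 0 < Real.sin (π / Rh M) := lt_of_lt_of_le (by positivity) h1
  set t := π / (2 * Rh M) with ht
  have e1 : π * M / Rh M = π - t := by
    have : (M : ℝ) = Rh M - 1 / 2 := by unfold Rh; ring
    rw [ht, this]
    field_simp
  have e2 : π / Rh M = 2 * t := by
    rw [ht]
    field_simp
  have ht0 : 0 < t := by positivity
  have ht1 : t ≤ π / 3 := by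
    rw [ht, div_le_div_iff₀ (by positivity) (by norm_num)]
    have : 4 ≤ 2 * Rh M := by linarith [Rh_le M]
    nlinarith
  have hs : 0 < Real.sin t := Real.sin_pos_of_pos_of_lt_pi ht0 (by linarith)
  have hc : 1 / 2 ≤ Real.cos t := by
    rw [← Real.cos_pi_div_three]
    exact Real.cos_le_cos_of_nonneg_of_le_pi ht0.le (by linarith) ht1
  rw [qi_eq, e1, Real.sin_pi_sub, abs_of_pos hs, abs_of_pos h2, e2, Real.sin_two_mul]
  have e3 : Real.sin t / (2 * Real.sin t * Real.cos t) = 1 / (2 * Real.cos t) := by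
    field_simp
  rw [e3]
  constructor
  · apply div_le_div_of_nonneg_left (by norm_num) (by linarith)
    linarith [Real.cos_le_one t]
  · rw [div_le_one (by linarith)]
    linarith

/-- the Turaev-Viro invariant (Detcherry-Kalfagianni-Yang formula), `r = 2 M + 1` -/
noncomputable def tvs (J : ℕ → ℂ) (M : ℕ) : ℝ :=
  (2 * Real.sin (2 * π / ((2 * M + 1 : ℕ) : ℝ)) / Real.sqrt ((2 * M + 1 : ℕ) : ℝ)) ^ 2 *
    ∑ i ∈ Icc 1 M, ‖br (vh M) i / br (vh M) 1 * J i‖ ^ 2

theorem tv_growth {V : ℝ} (J : ℕ → ℕ → ℂ)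
    (hle : ∀ ε : ℝ, 0 < ε → ∀ᶠ M : ℕ in atTop, ∀ i : ℕ, 1 ≤ i → i ≤ M →
      ‖J M i‖ ≤ M * Real.exp (M / (2 * π) * V + ε * M))
    (hge : ∀ ε : ℝ, 0 < ε → ∀ᶠ M : ℕ in atTop, Real.exp (M / (2 * π) * V - ε * M) ≤ ‖J M M‖) :
    Tendsto (fun M : ℕ => 2 * π / (((2 * M + 1 : ℕ) : ℝ) - 2) * Real.log (tvs (J M) M)) atTop
      (𝓝 V) := by
  have hp := Real.pi_pos
  have hs : Tendsto (fun M : ℕ => 2 * π / (((2 * M + 1 : ℕ) : ℝ) - 2) * M) atTop (𝓝 π) := by
    have h5 : Tendsto (fun M : ℕ => 2 * π / ((2 : ℝ) - 1 / M)) atTop (𝓝 (2 * π / (2 - 0))) :=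
      tendsto_const_nhds.div (tendsto_const_nhds.sub tendsto_one_div_atTop_nhds_zero_nat)
        (by norm_num)
    have e : 2 * π / (2 - 0) = π := by ring
    rw [e] at h5
    refine h5.congr' ?_
    filter_upwards [eventually_gt_atTop 0] with M hM
    have h1 : (1 : ℝ) ≤ M := by exact_mod_cast hM
    have h2 : (M : ℝ) ≠ 0 := by positivity
    have h3 : (2 * (M : ℝ) - 1) ≠ 0 := by
      have : 0 < 2 * (M : ℝ) - 1 := by linarith
      exact this.ne'
    have h4 : (2 : ℝ) - 1 / M = (2 * M - 1) / M := by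
      field_simp
    have h6 : ((2 * M + 1 : ℕ) : ℝ) - 2 = 2 * M - 1 := by
      push_cast
      ring
    rw [h4, h6]
    field_simp
  have key := log_limit (f := fun M => tvs (J M) M) (V := V / π) (t := π)
    (fun M => ((2 * M + 1 : ℕ) : ℝ) ^ 6) (Eventually.of_forall fun M => by positivity)
    (log_poly 6) hs ?_ ?_
  · have e : π * (V / π) = V := by field_simp
    rwa [e] at key
  · intro ε hε
    filter_upwards [hle (ε / 2) (by positivity), eventually_ge_atTop 2] with M h1 hM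
    have hMp : (0 : ℝ) < M := by
      have : 0 < M := by omega
      exact_mod_cast this
    set r : ℝ := ((2 * M + 1 : ℕ) : ℝ) with hr
    have hrM : (M : ℝ) ≤ r := by
      rw [hr]
      push_cast
      linarith
    have hr0 : 0 < r := by positivity
    have hr5 : 4 ≤ r := by
      rw [hr]
      have : 4 ≤ 2 * M + 1 := by omega
      exact_mod_cast this
    set E := Real.exp (M / (2 * π) * V + ε / 2 * M) with hE
    have hE0 : 0 < E := Real.exp_pos _
    have hpre : (2 * Real.sin (2 * π / r) / Real.sqrt r) ^ 2 ≤ 1 := by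
      rw [div_pow, Real.sq_sqrt hr0.le, div_le_one hr0]
      have := Real.sin_sq_le_one (2 * π / r)
      calc (2 * Real.sin (2 * π / r)) ^ 2 = 4 * Real.sin (2 * π / r) ^ 2 := by ring
        _ ≤ 4 * 1 := by linarith
        _ ≤ r := by linarith
    have hsum : ∑ i ∈ Icc 1 M, ‖br (vh M) i / br (vh M) 1 * J M i‖ ^ 2 ≤
        ∑ _i ∈ Icc 1 M, (r * (r * E)) ^ 2 := by
      apply Finset.sum_le_sum
      intro i hi
      rw [Finset.mem_Icc] at hi
      apply pow_le_pow_left₀ (norm_nonneg _)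
      rw [norm_mul]
      have k1 := qi_le hM i
      have k2 := h1 i hi.1 hi.2
      unfold qi at k1
      apply mul_le_mul k1 _ (norm_nonneg _) hr0.le
      exact le_trans k2 (mul_le_mul_of_nonneg_right hrM hE0.le)
    rw [Finset.sum_const, Nat.card_Icc, nsmul_eq_mul] at hsum
    unfold tvs
    calc (2 * Real.sin (2 * π / r) / Real.sqrt r) ^ 2 *
        ∑ i ∈ Icc 1 M, ‖br (vh M) i / br (vh M) 1 * J M i‖ ^ 2 ≤
        1 * (((M + 1 - 1 : ℕ) : ℝ) * (r * (r * E)) ^ 2) :=
          mul_le_mul hpre hsum (Finset.sum_nonneg fun _ _ => by positivity) (by norm_num)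
      _ = M * (r ^ 4 * E ^ 2) := by
          rw [Nat.add_sub_cancel]
          ring
      _ ≤ r ^ 2 * (r ^ 4 * E ^ 2) := by
          apply mul_le_mul_of_nonneg_right _ (by positivity)
          nlinarith
      _ = r ^ 6 * E ^ 2 := by ring
      _ = _ := by
          rw [hE, ← Real.exp_nat_mul]
          congr 2
          push_cast
          field_simp
  · intro ε hε
    filter_upwards [hge (ε / 2) (by positivity), eventually_ge_atTop 2] with M h1 hM
    have hMp : (0 : ℝ) < M := by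
      have : 0 < M := by omega
      exact_mod_cast this
    set r : ℝ := ((2 * M + 1 : ℕ) : ℝ) with hr
    have hr0 : 0 < r := by positivity
    have hr5 : 4 ≤ r := by
      rw [hr]
      have : 4 ≤ 2 * M + 1 := by omega
      exact_mod_cast this
    have hrR : 2 * Rh M = r := Rh_two M
    have hR := Rh_pos M
    set E := Real.exp (M / (2 * π) * V - ε / 2 * M) with hE
    have hE0 : 0 < E := Real.exp_pos _
    have hsl := sin_low hM
    have e1 : 2 * π / r = π / Rh M := by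
      rw [← hrR]
      field_simp
    have hpre : (r ^ 3)⁻¹ * 64 ≤ (2 * Real.sin (2 * π / r) / Real.sqrt r) ^ 2 := by
      rw [div_pow, Real.sq_sqrt hr0.le, e1, le_div_iff₀ hr0]
      have h2 : 0 ≤ 2 / Rh M := by positivity
      have h3 : (2 * (2 / Rh M)) ^ 2 ≤ (2 * Real.sin (π / Rh M)) ^ 2 :=
        pow_le_pow_left₀ (by positivity) (by linarith) 2
      refine le_trans (le_of_eq ?_) h3
      rw [← hrR]
      field_simp
      norm_num
    have hsum : (1 / 2 * E) ^ 2 ≤ ∑ i ∈ Icc 1 M, ‖br (vh M) i / br (vh M) 1 * J M i‖ ^ 2 := by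
      have h2 : (1 / 2 * E) ^ 2 ≤ ‖br (vh M) M / br (vh M) 1 * J M M‖ ^ 2 := by
        apply pow_le_pow_left₀ (by positivity)
        rw [norm_mul]
        have k1 := (qi_top hM).1
        unfold qi at k1
        exact mul_le_mul k1 h1 hE0.le (norm_nonneg _)
      refine le_trans h2 ?_
      exact Finset.single_le_sum
        (f := fun i : ℕ => ‖br (vh M) i / br (vh M) 1 * J M i‖ ^ 2)
        (fun i _ => by positivity) (Finset.mem_Icc.2 ⟨by omega, le_rfl⟩)
    unfold tvs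
    calc (r ^ 6)⁻¹ * Real.exp (M * (V / π) - ε * M) = (r ^ 6)⁻¹ * E ^ 2 := by
          rw [hE, ← Real.exp_nat_mul]
          congr 2
          push_cast
          field_simp
      _ ≤ ((r ^ 3)⁻¹ * 64) * (1 / 2 * E) ^ 2 := by
          have h2 : (r ^ 6)⁻¹ ≤ (r ^ 3)⁻¹ := by
            apply inv_anti₀ (by positivity)
            exact pow_le_pow_right₀ (by linarith) (by norm_num)
          have h3 : 0 < (r ^ 3)⁻¹ := by positivity
          have h4 : 0 < E ^ 2 := by positivity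
          calc (r ^ 6)⁻¹ * E ^ 2 ≤ (r ^ 3)⁻¹ * E ^ 2 := mul_le_mul_of_nonneg_right h2 h4.le
            _ ≤ ((r ^ 3)⁻¹ * E ^ 2) * 16 := by
              have : 0 < (r ^ 3)⁻¹ * E ^ 2 := by positivity
              linarith
            _ = _ := by ring
      _ ≤ _ := mul_le_mul hpre hsum (by positivity) (by positivity)

theorem top_growth {V : ℝ} (J : ℕ → ℂ)
    (hle : ∀ ε : ℝ, 0 < ε → ∀ᶠ M : ℕ in atTop, ‖J M‖ ≤ M * Real.exp (M / (2 * π) * V + ε * M))
    (hge : ∀ ε : ℝ, 0 < ε → ∀ᶠ M : ℕ in atTop, Real.exp (M / (2 * π) * V - ε * M) ≤ ‖J M‖) :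
    Tendsto (fun M : ℕ => 2 * π / ((M : ℝ) + 1 / 2) *
      Real.log ‖br (vh M) M / br (vh M) 1 * J M‖) atTop (𝓝 V) := by
  have hp := Real.pi_pos
  have hs : Tendsto (fun M : ℕ => 2 * π / ((M : ℝ) + 1 / 2) * M) atTop (𝓝 (2 * π)) := by
    have h5 : Tendsto (fun M : ℕ => 2 * π / ((1 : ℝ) + (1 / 2) / M)) atTop
        (𝓝 (2 * π / (1 + 0))) :=
      tendsto_const_nhds.div (tendsto_const_nhds.add (tendsto_const_div_atTop_nhds_zero_nat _))
        (by norm_num)
    have e : 2 * π / (1 + 0) = 2 * π := by ring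
    rw [e] at h5
    refine h5.congr' ?_
    filter_upwards [eventually_gt_atTop 0] with M hM
    have h1 : (1 : ℝ) ≤ M := by exact_mod_cast hM
    have h2 : (M : ℝ) ≠ 0 := by positivity
    have h3 : ((M : ℝ) + 1 / 2) ≠ 0 := by positivity
    have h4 : (1 : ℝ) + 1 / 2 / M = (M + 1 / 2) / M := by
      field_simp
    rw [h4]
    field_simp
  have key := log_limit (f := fun M => ‖br (vh M) M / br (vh M) 1 * J M‖) (V := V / (2 * π))
    (t := 2 * π) (fun M => ((2 * M + 1 : ℕ) : ℝ) ^ 1) (Eventually.of_forall fun M => by positivity)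
    (log_poly 1) hs ?_ ?_
  · have e : 2 * π * (V / (2 * π)) = V := by field_simp
    rwa [e] at key
  · intro ε hε
    filter_upwards [hle ε hε, eventually_ge_atTop 2] with M h1 hM
    rw [norm_mul]
    have k1 := (qi_top hM).2
    unfold qi at k1
    have hM' : (M : ℝ) ≤ ((2 * M + 1 : ℕ) : ℝ) ^ 1 := by
      rw [pow_one]
      push_cast
      have : (0 : ℝ) ≤ M := by positivity
      linarith
    calc ‖br (vh M) M / br (vh M) 1‖ * ‖J M‖ ≤
        1 * (M * Real.exp (M / (2 * π) * V + ε * M)) :=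
          mul_le_mul k1 h1 (norm_nonneg _) (by norm_num)
      _ = M * Real.exp (M / (2 * π) * V + ε * M) := one_mul _
      _ ≤ ((2 * M + 1 : ℕ) : ℝ) ^ 1 * Real.exp (M / (2 * π) * V + ε * M) :=
          mul_le_mul_of_nonneg_right hM' (Real.exp_pos _).le
      _ = _ := by
          congr 2
          ring
  · intro ε hε
    filter_upwards [hge ε hε, eventually_ge_atTop 2] with M h1 hM
    rw [norm_mul]
    have k1 := (qi_top hM).1
    unfold qi at k1
    have hE0 := Real.exp_pos (M / (2 * π) * V - ε * M)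
    have h2 : (((2 * M + 1 : ℕ) : ℝ) ^ 1)⁻¹ ≤ 1 / 2 := by
      rw [pow_one, inv_eq_one_div]
      apply div_le_div_of_nonneg_left (by norm_num) (by norm_num)
      have : 2 ≤ 2 * M + 1 := by omega
      exact_mod_cast this
    calc (((2 * M + 1 : ℕ) : ℝ) ^ 1)⁻¹ * Real.exp (M * (V / (2 * π)) - ε * M) =
        (((2 * M + 1 : ℕ) : ℝ) ^ 1)⁻¹ * Real.exp (M / (2 * π) * V - ε * M) := by
          congr 2
          ring
      _ ≤ 1 / 2 * Real.exp (M / (2 * π) * V - ε * M) := mul_le_mul_of_nonneg_right h2 hE0.le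
      _ ≤ _ := mul_le_mul k1 h1 hE0.le (norm_nonneg _)

end Pool.Agent.W707.TV
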