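import Pool.Agent.W707.TV.Defs
import Pool.Agent.W709.VC.Gam3
import Pool.Agent.W973.VcRect

/-! The twist coefficient at `e^{π i/(M+1/2)}` as a contour integral. -/

set_option autoImplicit false

namespace Pool.Agent.W707.TV

open Filter Finset EvenVol Pool.Agent.H112R4.VL Pool.Agent.W709.VC
open scoped Real Topology

lemma Rh_pos (M : ℕ) : 0 < Rh M := by
  unfold Rh
  positivity

lemma Rh_two (M : ℕ) : 2 * Rh M = ((2 * M + 1 : ℕ) : ℝ) := by
  unfold Rh
  push_cast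
  ring

lemma Rhc (M : ℕ) : ((Rh M : ℝ) : ℂ) = ((2 * M + 1 : ℕ) : ℂ) / 2 := by
  unfold Rh
  push_cast
  ring

lemma vh_eq (M : ℕ) : Complex.exp (Complex.I * π * 2 / ((2 * M + 1 : ℕ) : ℂ)) = vh M := by
  unfold vh
  rw [Rhc]
  congr 1
  have : ((2 * M + 1 : ℕ) : ℂ) ≠ 0 := by
    have : (2 * M + 1 : ℕ) ≠ 0 := by omega
    exact_mod_cast this
  field_simp

lemma vh_ne (M : ℕ) : vh M ≠ 0 := Complex.exp_ne_zero _

lemma uu_zz2 {N : ℕ} {s v : ℂ} (h1 : Complex.exp (Complex.I * π * s / N) = v) (j : ℕ) :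
    uu v (j : ℤ) = 2 * Complex.cos (zz N s j) := by
  have e1 : v ^ (2 * (j : ℤ) + 1) = Complex.exp (zz N s j * Complex.I) := by
    rw [show (2 * (j : ℤ) + 1) = ((2 * j + 1 : ℕ) : ℤ) by push_cast; ring, zpow_natCast]
    nth_rw 1 [← h1]
    rw [← Complex.exp_nat_mul]
    congr 1
    unfold zz
    push_cast
    ring
  have e2 : v ^ (-(2 * (j : ℤ) + 1)) = Complex.exp (-zz N s j * Complex.I) := by
    rw [zpow_neg, e1, ← Complex.exp_neg]
    congr 1
    ring
  unfold uu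
  rw [e1, e2, Complex.cos]
  ring

lemma theta_eq2 {N : ℕ} (hN : 0 < N) {s v : ℂ} (h1 : Complex.exp (Complex.I * π * s / N) = v)
    (hs : s ≠ 0) (k : ℕ) :
    (-1) ^ k * v ^ (k * (k + 1)) = Cs N (s, s⁻¹) * EE N s⁻¹ (zz N s k) := by
  have hN0 : (N : ℂ) ≠ 0 := by exact_mod_cast hN.ne'
  have hpi : (π : ℂ) ≠ 0 := by exact_mod_cast Real.pi_ne_zero
  have e1 : v ^ (k * (k + 1)) = Complex.exp (Complex.I * π * s * (k * (k + 1)) / N) := by
    nth_rw 1 [← h1]
    rw [← Complex.exp_nat_mul]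
    congr 1
    push_cast
    ring
  have e2 : (-1 : ℂ) ^ k = Complex.exp (-(Complex.I * π * k)) := by
    have : (-1 : ℂ) = Complex.exp (-(π * Complex.I)) := by
      rw [Complex.exp_neg, Complex.exp_pi_mul_I]
      norm_num
    rw [this, ← Complex.exp_nat_mul]
    congr 1
    ring
  rw [e1, e2]
  unfold Cs EE zz
  rw [← Complex.exp_add, ← Complex.exp_add]
  congr 1
  show -(Complex.I * π * k) + Complex.I * π * s * (k * (k + 1)) / N =
    Complex.I * π / 2 - Complex.I * π * s / (4 * N) - Complex.I * π * N * s⁻¹ / 4 +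
    Complex.I * N * (π * s * (2 * k + 1) / N - π) ^ 2 * s⁻¹ / (4 * π)
  field_simp
  ring

/-- `{k} ≠ 0` for `0 < k < 2 M + 1` -/
lemma br_vh (M : ℕ) (k : ℤ) : br (vh M) k = 2 * Complex.I * (Real.sin (π * k / Rh M) : ℂ) := by
  unfold br vh
  rw [← Complex.exp_int_mul, ← Complex.exp_int_mul, Complex.ofReal_sin, Complex.sin]
  have e1 : (k : ℂ) * (π * Complex.I / Rh M) = ((π * k / Rh M : ℝ) : ℂ) * Complex.I := by
    push_cast
    ring
  have e2 : ((-k : ℤ) : ℂ) * (π * Complex.I / Rh M) = -((π * k / Rh M : ℝ) : ℂ) * Complex.I := by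
    push_cast
    ring
  rw [e1, e2]
  have hI : Complex.I ^ 2 = -1 := Complex.I_sq
  linear_combination (-(Complex.exp (-((π * k / Rh M : ℝ) : ℂ) * Complex.I) -
    Complex.exp (((π * k / Rh M : ℝ) : ℂ) * Complex.I))) * hI

lemma sin_vh_ne {M : ℕ} {k : ℤ} (h0 : 0 < k) (h1 : k < 2 * M + 1) :
    Real.sin (π * k / Rh M) ≠ 0 := by
  intro h
  rw [Real.sin_eq_zero_iff] at h
  obtain ⟨n, hn⟩ := h
  have hR := Rh_pos M
  have hp := Real.pi_pos
  rw [eq_div_iff hR.ne'] at hn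
  have h2 : (n : ℝ) * Rh M = k := by
    have : π * (n * Rh M) = π * k := by linarith
    exact mul_left_cancel₀ hp.ne' this
  have h3 : (n : ℝ) * ((2 * M + 1 : ℕ) : ℝ) = 2 * k := by
    rw [← Rh_two]
    linarith
  have h4 : n * ((2 * M + 1 : ℕ) : ℤ) = 2 * k := by exact_mod_cast h3
  have h5 : (2 : ℤ) ∣ n * ((2 * M + 1 : ℕ) : ℤ) := ⟨k, by rw [h4]⟩
  have h6 : IsCoprime (2 : ℤ) ((2 * M + 1 : ℕ) : ℤ) := ⟨-M, 1, by push_cast; ring⟩
  have h7 : (2 : ℤ) ∣ n := h6.dvd_of_dvd_mul_right h5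
  obtain ⟨c, rfl⟩ := h7
  have h8 : c * ((2 * M + 1 : ℕ) : ℤ) = k := by
    have : 2 * (c * ((2 * M + 1 : ℕ) : ℤ)) = 2 * k := by rw [← h4]; ring
    linarith
  push_cast at h8
  have h9 : 0 < c := by
    by_contra hc
    push Not at hc
    nlinarith
  nlinarith

lemma br_vh_ne {M : ℕ} {k : ℤ} (h0 : 0 < k) (h1 : k < 2 * M + 1) : br (vh M) k ≠ 0 := by
  rw [br_vh]
  apply mul_ne_zero
  · exact mul_ne_zero two_ne_zero Complex.I_ne_zero
  · exact_mod_cast sin_vh_ne h0 h1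

lemma brf_vh_ne {M n : ℕ} (h : n < 2 * M + 1) : brf (vh M) n ≠ 0 := by
  unfold brf
  rw [Finset.prod_ne_zero_iff]
  intro j hj
  rw [Finset.mem_range] at hj
  exact br_vh_ne (by omega) (by omega)

lemma prod_pairs (f : ℕ → ℂ) (M : ℕ) :
    ∏ k ∈ range (2 * M + 1), f k = f 0 * ((∏ j ∈ range M, f (2 * j + 1)) *
      ∏ j ∈ range M, f (2 * M - (2 * j))) := by
  have h1 : ∏ k ∈ range (2 * M + 1), f k = f 0 * ((∏ j ∈ range M, f (2 * j + 1)) *
      ∏ j ∈ range M, f (2 * j + 2)) := by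
    induction M with
    | zero => simp
    | succ M ih =>
      rw [show 2 * (M + 1) + 1 = (2 * M + 1) + 1 + 1 by ring, Finset.prod_range_succ,
        Finset.prod_range_succ, ih, Finset.prod_range_succ, Finset.prod_range_succ]
      ring
  rw [h1]
  congr 2
  rw [← Finset.prod_range_reflect]
  apply Finset.prod_congr rfl
  intro j hj
  rw [Finset.mem_range] at hj
  congr 1
  omega

/-- the full product -/
lemma prod_full (M : ℕ) (φ : ℂ) :
    (∏ j ∈ range M, (2 * Complex.cos φ - 2 * Complex.cos (zz (2 * M + 1) 2 j))) *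
      Complex.sin (φ / 2) = Complex.sin (Rh M * φ) := by
  set r : ℕ := 2 * M + 1 with hr
  have hr0 : r ≠ 0 := by omega
  have hrc : (r : ℂ) ≠ 0 := by exact_mod_cast hr0
  set ζ := Complex.exp (2 * π * Complex.I / r) with hζd
  have hζ : IsPrimitiveRoot ζ r := Complex.isPrimitiveRoot_exp r hr0
  set w := Complex.exp (Complex.I * φ) with hwd
  have hw : w ≠ 0 := Complex.exp_ne_zero _
  have hζ0 : ζ ≠ 0 := Complex.exp_ne_zero _
  have h1 : ∏ k ∈ range r, (w - ζ ^ k) = w ^ r - 1 := by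
    have h := X_pow_sub_C_eq_prod (a := 1) (α := 1) hζ (by omega) (by simp)
    have h2 := congrArg (Polynomial.eval w) h
    rw [Polynomial.eval_prod] at h2
    simp only [Polynomial.eval_sub, Polynomial.eval_pow, Polynomial.eval_X, Polynomial.eval_C,
      mul_one] at h2
    exact h2.symm
  rw [hr, prod_pairs (fun k => w - ζ ^ k) M] at h1
  have hfac : ∀ j ∈ range M, (2 * Complex.cos φ - 2 * Complex.cos (zz r 2 j)) =
      (w - ζ ^ (2 * j + 1)) * (w - ζ ^ (2 * M - 2 * j)) * w⁻¹ := by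
    intro j hj
    rw [Finset.mem_range] at hj
    have e1 : ζ ^ (2 * j + 1) = Complex.exp (zz r 2 j * Complex.I) := by
      rw [hζd, ← Complex.exp_nat_mul]
      congr 1
      unfold zz
      push_cast
      ring
    have e2 : ζ ^ (2 * M - 2 * j) = Complex.exp (-zz r 2 j * Complex.I) := by
      have h3 : ζ ^ (2 * M - 2 * j) * ζ ^ (2 * j + 1) = 1 := by
        rw [← pow_add, show 2 * M - 2 * j + (2 * j + 1) = r by omega, hζ.pow_eq_one]
      have h4 : Complex.exp (-zz r 2 j * Complex.I) * Complex.exp (zz r 2 j * Complex.I) = 1 := by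
        rw [← Complex.exp_add]
        simp
      rw [e1] at h3
      exact mul_right_cancel₀ (Complex.exp_ne_zero _) (h3.trans h4.symm)
    have e4 : 2 * Complex.cos φ = w + w⁻¹ := by
      rw [hwd, ← Complex.exp_neg, Complex.cos]
      rw [show φ * Complex.I = Complex.I * φ by ring, show -φ * Complex.I = -(Complex.I * φ) by ring]
      ring
    have e5 : 2 * Complex.cos (zz r 2 j) = Complex.exp (zz r 2 j * Complex.I) +
        Complex.exp (-zz r 2 j * Complex.I) := by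
      rw [Complex.cos]
      ring
    rw [e4, e5, e1, e2]
    have hm : Complex.exp (zz r 2 j * Complex.I) * Complex.exp (-zz r 2 j * Complex.I) = 1 := by
      rw [← Complex.exp_add]; simp
    have hww : w * w⁻¹ = 1 := mul_inv_cancel₀ hw
    linear_combination (-w⁻¹) * hm +
      (Complex.exp (zz r 2 j * Complex.I) + Complex.exp (-zz r 2 j * Complex.I) - w) * hww
  rw [Finset.prod_congr rfl hfac, Finset.prod_mul_distrib, Finset.prod_mul_distrib,
    Finset.prod_const, Finset.card_range]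
  simp only [pow_zero] at h1
  set y := Complex.exp (Complex.I * (φ / 2)) with hy
  have hy0 : y ≠ 0 := Complex.exp_ne_zero _
  have hwy : w = y ^ 2 := by
    rw [hwd, hy, ← Complex.exp_nat_mul]
    congr 1
    push_cast
    ring
  have hs : Complex.sin (φ / 2) = (w - 1) * y⁻¹ / (2 * Complex.I) := by
    rw [Complex.sin, hwy]
    have e1 : Complex.exp (-(φ / 2) * Complex.I) = y⁻¹ := by
      rw [hy, ← Complex.exp_neg]
      congr 1
      ring
    have e2 : Complex.exp (φ / 2 * Complex.I) = y := by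
      rw [hy]
      congr 1
      ring
    rw [e1, e2]
    have hI : Complex.I ≠ 0 := Complex.I_ne_zero
    field_simp
    rw [Complex.I_sq]
    ring
  have hs2 : Complex.sin (Rh M * φ) = (w ^ r - 1) * (y ^ r)⁻¹ / (2 * Complex.I) := by
    rw [Complex.sin, hwy]
    have e2 : Complex.exp (Rh M * φ * Complex.I) = y ^ r := by
      rw [hy, ← Complex.exp_nat_mul, Rhc]
      congr 1
      ring
    have e1 : Complex.exp (-(Rh M * φ) * Complex.I) = (y ^ r)⁻¹ := by
      rw [← e2, ← Complex.exp_neg]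
      congr 1
      ring
    rw [e1, e2]
    have hI : Complex.I ≠ 0 := Complex.I_ne_zero
    have hyr : y ^ r ≠ 0 := pow_ne_zero _ hy0
    have : (y ^ 2) ^ r = (y ^ r) ^ 2 := by rw [← pow_mul, ← pow_mul, mul_comm]
    rw [this]
    field_simp
    rw [Complex.I_sq]
    ring
  rw [hs, hs2, ← h1]
  have e6 : (y ^ r)⁻¹ = (w⁻¹) ^ M * y⁻¹ := by
    rw [hr, hwy]
    rw [← inv_pow, pow_succ, pow_mul, inv_pow]
  rw [e6]
  ring

lemma zz_mem {M j : ℕ} (hj : j < M) : 0 < (zz (2 * M + 1) 2 j).re ∧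
    (zz (2 * M + 1) 2 j).re < 2 * π ∧ (zz (2 * M + 1) 2 j).im = 0 := by
  have e : zz (2 * M + 1) 2 j = ((π * (2 * j + 1) / Rh M : ℝ) : ℂ) := by
    unfold zz
    rw [Complex.ofReal_div, Rhc]
    push_cast
    have : (2 * (M : ℂ) + 1) ≠ 0 := by
      have h : ((2 * M + 1 : ℕ) : ℂ) ≠ 0 := by
        have : (2 * M + 1 : ℕ) ≠ 0 := by omega
        exact_mod_cast this
      simpa using h
    field_simp
  rw [e]
  have hR := Rh_pos M
  have hp := Real.pi_pos
  have hj' : (j : ℝ) + 1 ≤ M := by exact_mod_cast hj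
  refine ⟨by rw [Complex.ofReal_re]; positivity, ?_, Complex.ofReal_im _⟩
  rw [Complex.ofReal_re, div_lt_iff₀ hR]
  unfold Rh
  nlinarith

lemma Cs_norm2 (M : ℕ) : ‖Cs (2 * M + 1) ((2 : ℂ), (2 : ℂ)⁻¹)‖ = 1 := by
  unfold Cs
  have : Complex.I * π / 2 - Complex.I * π * ((2 : ℂ), (2 : ℂ)⁻¹).1 / (4 * ((2 * M + 1 : ℕ) : ℂ)) -
      Complex.I * π * ((2 * M + 1 : ℕ) : ℂ) * ((2 : ℂ), (2 : ℂ)⁻¹).2 / 4 =
      ((π / 2 - π * 2 / (4 * (2 * M + 1 : ℕ)) - π * (2 * M + 1 : ℕ) * 2⁻¹ / 4 : ℝ) : ℂ) *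
        Complex.I := by
    push_cast
    ring
  rw [this, Complex.norm_exp_ofReal_mul_I]

lemma rect_Hint (A : ℕ) {M n : ℕ} (hn : n < M) {h : ℝ} (hh : 0 < h) :
    rect (fun φ => PP A (2 * M + 1) (2, 2⁻¹) φ / QQ (2 * M + 1) n (2, 2⁻¹) φ) 0 (2 * π) (-h) h =
      rect (Hint A M (M - 1 - n)) (-π) π (-h) h := by
  have hs := rect_shift (fun φ => PP A (2 * M + 1) (2, 2⁻¹) φ / QQ (2 * M + 1) n (2, 2⁻¹) φ)
    (-π) π (-h) h π
  have e0 : -π + π = 0 := by ring
  have e1 : π + π = 2 * π := by ring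
  rw [e0, e1] at hs
  rw [← hs]
  apply rect_congr
  intro ψ hψ
  have hφ : ψ + π ∈ Bd 0 (2 * π) (-h) h := by
    rcases hψ with ⟨x, hx, hz⟩ | ⟨x, hx, hz⟩ | ⟨y, hy, hz⟩ | ⟨y, hy, hz⟩
    · refine Or.inl ⟨x + π, ?_, ?_⟩
      · rw [Set.uIcc_of_le (by linarith [Real.pi_pos])] at hx ⊢
        constructor <;> linarith [hx.1, hx.2]
      · rw [hz]; push_cast; ring
    · refine Or.inr (Or.inl ⟨x + π, ?_, ?_⟩)
      · rw [Set.uIcc_of_le (by linarith [Real.pi_pos])] at hx ⊢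
        constructor <;> linarith [hx.1, hx.2]
      · rw [hz]; push_cast; ring
    · refine Or.inr (Or.inr (Or.inl ⟨y, hy, ?_⟩))
      rw [hz]; push_cast; ring
    · refine Or.inr (Or.inr (Or.inr ⟨y, hy, ?_⟩))
      rw [hz]; push_cast; ring
  have hnz : ∀ j, j < M → 2 * Complex.cos (ψ + π) - 2 * Complex.cos (zz (2 * M + 1) 2 j) ≠ 0 := by
    intro j hj h0
    have h1 := zz_mem hj
    exact bd_ne (z := zz (2 * M + 1) 2 j) h1.1 h1.2.1 (by rw [h1.2.2]; simpa using hh) hφ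
      (by linear_combination (1 / 2) * h0)
  have hfull := prod_full M (ψ + π)
  obtain ⟨d, hd⟩ : ∃ d, M = n + 1 + d := ⟨M - (n + 1), by omega⟩
  have hsplit : ∏ j ∈ range M, (2 * Complex.cos (ψ + π) - 2 * Complex.cos (zz (2 * M + 1) 2 j)) =
      QQ (2 * M + 1) n (2, 2⁻¹) (ψ + π) * RH M (M - 1 - n) ψ := by
    have h1 : range M = range (n + 1 + d) := by rw [← hd]
    rw [h1, Finset.prod_range_add]
    unfold QQ RH
    congr 1
    rw [show M - 1 - n = d by omega, ← Finset.prod_range_reflect]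
    apply Finset.prod_congr rfl
    intro j hj
    rw [Finset.mem_range] at hj
    have h2 : Complex.cos (zz (2 * M + 1) 2 (n + 1 + (d - 1 - j))) =
        (Real.cos (2 * π * (j + 1) / Rh M) : ℂ) := by
      rw [Complex.ofReal_cos]
      have h3 : zz (2 * M + 1) 2 (n + 1 + (d - 1 - j)) =
          2 * π - ((2 * π * (j + 1) / Rh M : ℝ) : ℂ) := by
        have h4 : ((n + 1 + (d - 1 - j) : ℕ) : ℂ) = M - 1 - j := by
          have : n + 1 + (d - 1 - j) = M - 1 - j := by omega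
          rw [this, Nat.cast_sub (by omega), Nat.cast_sub (by omega)]
          simp
        unfold zz
        rw [h4, Complex.ofReal_div, Rhc]
        have : ((2 * M + 1 : ℕ) : ℂ) ≠ 0 := by
          have : (2 * M + 1 : ℕ) ≠ 0 := by omega
          exact_mod_cast this
        push_cast
        push_cast at this
        field_simp
        ring
      rw [h3, Complex.cos_two_pi_sub]
    rw [h2, Complex.cos_add_pi]
    ring
  have hP : PP A (2 * M + 1) (2, 2⁻¹) (ψ + π) =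
      Complex.exp (Complex.I * A * Rh M * ψ ^ 2 / (4 * π)) * (2 * Complex.sin ψ) := by
    unfold PP EE
    show Complex.exp (Complex.I * ((2 * M + 1 : ℕ) : ℂ) * (ψ + π - π) ^ 2 * 2⁻¹ / (4 * π)) ^ A *
      (-2 * Complex.sin (ψ + π)) = _
    rw [Complex.sin_add_pi, ← Complex.exp_nat_mul, Rhc]
    have e3 : (A : ℂ) * (Complex.I * ((2 * M + 1 : ℕ) : ℂ) * (ψ + π - π) ^ 2 * 2⁻¹ / (4 * π)) =
        Complex.I * A * (((2 * M + 1 : ℕ) : ℂ) / 2) * ψ ^ 2 / (4 * π) := by ring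
    rw [e3]
    ring
  have hsin : Complex.sin ((ψ + π) / 2) = Complex.cos (ψ / 2) := by
    rw [show (ψ + π) / 2 = ψ / 2 + π / 2 by ring, Complex.sin_add_pi_div_two]
  have hQ0 : QQ (2 * M + 1) n (2, 2⁻¹) (ψ + π) ≠ 0 := by
    unfold QQ
    rw [Finset.prod_ne_zero_iff]
    intro j hj
    rw [Finset.mem_range] at hj
    exact hnz j (by omega)
  have hR0 : RH M (M - 1 - n) ψ ≠ 0 := by
    intro h0
    have h1 : ∏ j ∈ range M, (2 * Complex.cos (ψ + π) - 2 * Complex.cos (zz (2 * M + 1) 2 j)) ≠ 0 := by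
      rw [Finset.prod_ne_zero_iff]
      intro j hj
      exact hnz j (Finset.mem_range.1 hj)
    rw [hsplit, h0, mul_zero] at h1
    exact h1 rfl
  show PP A (2 * M + 1) (2, 2⁻¹) (ψ + π) / QQ (2 * M + 1) n (2, 2⁻¹) (ψ + π) = _
  rw [hP]
  unfold Hint
  rw [hsplit, hsin] at hfull
  rw [← hfull]
  by_cases hc : Complex.cos (ψ / 2) = 0
  · have hsz : Complex.sin ψ = 0 := by
      rw [show ψ = 2 * (ψ / 2) by ring, Complex.sin_two_mul, hc]
      ring
    rw [hc, hsz]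
    simp
  · field_simp

theorem hgam : S_HGAM := by
  intro A M n hn h hh
  have hR : S_RECT := Pool.Agent.W973.VcRect.rect
  have hv := vh_ne M
  have hNp : 0 < 2 * M + 1 := by omega
  have hb : brf (vh M) (2 * n + 1) ≠ 0 := brf_vh_ne (by omega)
  have hfun : (fun j : ℕ => uu (vh M) (j : ℤ)) =
      (fun j : ℕ => 2 * Complex.cos (zz (2 * M + 1) 2 j)) := by
    funext j
    exact uu_zz2 (vh_eq M) j
  have hinj := uu_inj hv hb
  rw [hfun] at hinj
  have hnd : ∀ j ∈ range (n + 1), 0 < (zz (2 * M + 1) 2 j).re ∧ (zz (2 * M + 1) 2 j).re < 2 * π ∧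
      |(zz (2 * M + 1) 2 j).im| < h := by
    intro j hj
    rw [Finset.mem_range] at hj
    have h1 := zz_mem (M := M) (j := j) (by omega)
    exact ⟨h1.1, h1.2.1, by rw [h1.2.2]; simpa using hh⟩
  have h1 := rect_PQ hR A (2 * M + 1) n 2 2⁻¹ h hnd hinj
  rw [rect_Hint A hn hh] at h1
  have h2 : gamH (A : ℤ) (vh M) n = brf (vh M) n * (Cs (2 * M + 1) (2, 2⁻¹) ^ A *
      (rect (Hint A M (M - 1 - n)) (-π) π (-h) h / (4 * π * Complex.I))) := by
    rw [h1, gamH_nodes hv _ hb]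
    congr 1
    have hpi : (4 * π * Complex.I : ℂ) ≠ 0 := by
      have : (π : ℂ) ≠ 0 := by exact_mod_cast Real.pi_ne_zero
      simp [this]
    rw [mul_div_cancel_left₀ _ hpi, Finset.mul_sum]
    apply Finset.sum_congr rfl
    intro k _
    rw [hfun, zpow_natCast, theta_eq2 hNp (vh_eq M) two_ne_zero k, mul_pow]
    ring
  rw [h2, norm_mul, norm_mul, norm_pow, Cs_norm2, one_pow, one_mul, norm_div]
  have h4 : ‖(4 * π * Complex.I : ℂ)‖ = 4 * π := by
    rw [norm_mul, norm_mul, Complex.norm_I, Complex.norm_real, Real.norm_eq_abs,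
      abs_of_pos Real.pi_pos]
    norm_num
  rw [h4]
  ring

end Pool.Agent.W707.TV
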