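import Pool.Agent.W707.TV.Eb
import Pool.Agent.W707.TV.Diag
import Pool.Agent.W709.VC.Full
import Pool.Agent.W688.TV.Rs
import Pool.Agent.W125.TV.Vert
import Pool.Agent.W975.TV.Small
import Pool.Agent.W505.TV.Lap
import Pool.Agent.W505.TV.Col
import Pool.Agent.W505.TV.ColSmall

/-! Growth at `e^{2 π i / (M + 1/2)}` for `C(A,A)`. -/

set_option autoImplicit false

namespace Pool.Agent.W707.TV

open Filter Finset EvenVol Pool.Agent.H112R4.VL Pool.Agent.W709.VC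
open Pool.Agent.W709.RT (jt)
open scoped Real Topology

theorem up_all : S_HUP :=
  hup Pool.Agent.W688.TV.hrs Pool.Agent.W125.TV.hbrf Pool.Agent.W125.TV.hvert
    Pool.Agent.W402.VC.max Pool.Agent.W305.VC.neg Pool.Agent.W305.VC.vup
    Pool.Agent.W973.VcVc.vconv Pool.Agent.W973.VcVc.vend Pool.Agent.W305.VC.ten
    Pool.Agent.W305.VC.real

theorem low_all : S_HLOW :=
  hlow Pool.Agent.W688.TV.hrs Pool.Agent.W125.TV.hbrf Pool.Agent.W125.TV.hvert
    Pool.Agent.W402.VC.max Pool.Agent.W305.VC.vup Pool.Agent.W973.VcVc.vconv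
    Pool.Agent.W973.VcVc.vend Pool.Agent.W305.VC.ten Pool.Agent.W305.VC.real
    Pool.Agent.W402.VC.quad Pool.Agent.W505.TV.hlap Pool.Agent.W973.VcDc.dc

/-- two-sided bounds for the R-matrix invariants, with the volume -/
theorem bounds {A : ℕ} (hA : 4 ≤ A) :
    ∃ V : ℝ, IsGreatest {W : ℝ | ∃ w, IsAngle A A w ∧ volw A A w = W} V ∧
      (∀ ε : ℝ, 0 < ε → ∀ᶠ M : ℕ in atTop, ∀ i : ℕ, 1 ≤ i → i ≤ M →
        ‖jt A i (vh M)‖ ≤ M * Real.exp (M / (2 * π) * V + ε * M)) ∧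
      (∀ ε : ℝ, 0 < ε → ∀ᶠ M : ℕ in atTop,
        Real.exp (M / (2 * π) * V - ε * M) ≤ ‖jt A M (vh M)‖) := by
  have hA' : (4 : ℝ) ≤ A := by exact_mod_cast hA
  obtain ⟨α, b, η, hC⟩ := Pool.Agent.W704.VC.Crit.crit ((A : ℝ) / 2) (by linarith)
  have hV10 : 10 * GapVol.lob (π / 6) ≤ pot ((A : ℝ) / 2) α b η :=
    vol_ge Pool.Agent.W402.VC.max Pool.Agent.W305.VC.ten (by linarith) hC
  have hl := Pool.Agent.W709.VC.lob6_pos
  refine ⟨pot ((A : ℝ) / 2) α b η, s_greatest hA hC, ?_, ?_⟩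
  · intro ε hε
    filter_upwards [J_le Pool.Agent.W975.TV.hsmall up_all Pool.Agent.W505.TV.colbig
      Pool.Agent.W505.TV.colsmall Pool.Agent.W505.TV.jsum hA hC (by linarith) hε]
      with M hM i hi hiM
    rw [jt_vh A (by omega) hiM]
    exact hM i hi hiM
  · intro ε hε
    filter_upwards [J_ge low_all Pool.Agent.W505.TV.colbig Pool.Agent.W505.TV.jsum hA hC hε, eventually_ge_atTop 1] with M hM hM1
    rw [jt_vh A (by omega) le_rfl]
    exact hM

/-- growth of all coloured invariants of `C(A,A)` -/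
theorem eb : ∃ V : ℕ → ℝ, ∀ A : ℕ, 4 ≤ A →
    IsGreatest {W : ℝ | ∃ w, IsAngle A A w ∧ volw A A w = W} (V A) ∧
    EB (fun M i => jt A i (vh M)) (V A) := by
  have h : ∀ A : ℕ, ∃ V : ℝ, 4 ≤ A →
      IsGreatest {W : ℝ | ∃ w, IsAngle A A w ∧ volw A A w = W} V ∧
      EB (fun M i => jt A i (vh M)) V := by
    intro A
    by_cases hA : 4 ≤ A
    · obtain ⟨V, h1, h2, h3⟩ := bounds hA
      exact ⟨V, fun _ => ⟨h1, EB_of h2 h3⟩⟩
    · exact ⟨0, fun h => absurd h hA⟩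
  choose V hV using h
  exact ⟨V, hV⟩

end Pool.Agent.W707.TV
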