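import Pool.Agent.W707.TV.Path

/-! Pointwise bounds for the integrand off the real axis. -/

set_option autoImplicit false

namespace Pool.Agent.W707.TV

open Filter Finset EvenVol Pool.Agent.H112R4.VL Pool.Agent.W709.VC
open scoped Real Topology

lemma norm_expoH (A M : ℕ) (b η : ℝ) :
    ‖Complex.exp (Complex.I * A * Rh M * (-b + η * Complex.I) ^ 2 / (4 * π))‖ =
      Real.exp (A * Rh M * b * η / (2 * π)) := by
  rw [Complex.norm_exp]
  congr 1
  have hpi : (π : ℝ) ≠ 0 := Real.pi_ne_zero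
  have h1 : Complex.I * A * Rh M * (-b + η * Complex.I) ^ 2 / (4 * π) =
      ((A * Rh M * b * η / (2 * π) : ℝ) : ℂ) +
        ((A * Rh M * (b ^ 2 - η ^ 2) / (4 * π) : ℝ) : ℂ) * Complex.I := by
    have hpc : (π : ℂ) ≠ 0 := by exact_mod_cast hpi
    have hI : Complex.I ^ 2 = -1 := Complex.I_sq
    have hI3 : Complex.I ^ 3 = -Complex.I := by rw [pow_succ, hI]; ring
    push_cast
    field_simp
    ring_nf
    rw [hI3, hI]
    ring
  rw [h1, Complex.add_re, Complex.re_ofReal_mul, Complex.I_re, Complex.ofReal_re]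
  ring

lemma norm_sinR (M : ℕ) (b η : ℝ) (hη : 0 < η) :
    Real.exp (Rh M * η) * (1 - Real.exp (-(2 * Rh M * η))) ≤
      ‖2 * Complex.sin (Rh M * (-b + η * Complex.I + π))‖ ∧
    ‖2 * Complex.sin (Rh M * (-b + η * Complex.I + π))‖ ≤ Real.exp (Rh M * η) * 2 := by
  have hR := Rh_pos M
  set z : ℂ := Rh M * (-b + η * Complex.I + π) with hz
  have h1 : 2 * Complex.sin z =
      (Complex.exp (-z * Complex.I) - Complex.exp (z * Complex.I)) * Complex.I := by
    rw [Complex.sin]
    ring
  have him : z.im = Rh M * η := by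
    rw [hz]
    simp
  have n1 : ‖Complex.exp (-z * Complex.I)‖ = Real.exp (Rh M * η) := by
    rw [Complex.norm_exp]
    congr 1
    simp [him]
  have n2 : ‖Complex.exp (z * Complex.I)‖ = Real.exp (-(Rh M * η)) := by
    rw [Complex.norm_exp]
    congr 1
    simp [him]
  rw [h1, norm_mul, Complex.norm_I, mul_one]
  have e1 : Real.exp (Rh M * η) * (1 - Real.exp (-(2 * Rh M * η))) =
      Real.exp (Rh M * η) - Real.exp (-(Rh M * η)) := by
    rw [mul_sub, mul_one, ← Real.exp_add]
    congr 2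
    ring
  have hle : Real.exp (-(Rh M * η)) ≤ Real.exp (Rh M * η) := by
    apply Real.exp_le_exp.2
    have : 0 < Rh M * η := by positivity
    linarith
  constructor
  · rw [e1]
    have := norm_sub_norm_le (Complex.exp (-z * Complex.I)) (Complex.exp (z * Complex.I))
    rwa [n1, n2] at this
  · have := norm_sub_le (Complex.exp (-z * Complex.I)) (Complex.exp (z * Complex.I))
    rw [n1, n2] at this
    linarith

lemma sinRNe (M : ℕ) {b η : ℝ} (hη : 0 < η) :
    2 * Complex.sin (Rh M * (-b + η * Complex.I + π)) ≠ 0 := by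
  have hR := Rh_pos M
  have h := (norm_sinR M b η hη).1
  intro h0
  rw [h0, norm_zero] at h
  have h1 : Real.exp (-(2 * Rh M * η)) < 1 := by
    rw [Real.exp_lt_one_iff]
    have : 0 < Rh M * η := by positivity
    linarith
  have h2 : 0 < Real.exp (Rh M * η) * (1 - Real.exp (-(2 * Rh M * η))) :=
    mul_pos (Real.exp_pos _) (by linarith)
  linarith

lemma RH_ne {M d : ℕ} {ψ : ℂ} (h : ψ.im ≠ 0) : RH M d ψ ≠ 0 := by
  unfold RH
  rw [Finset.prod_ne_zero_iff]
  intro j _ h0
  have h1 : Complex.cos ψ = Complex.cos (((2 * π * (j + 1) / Rh M : ℝ) : ℂ) + π) := by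
    rw [Complex.cos_add_pi, ← Complex.ofReal_cos]
    linear_combination (-1 / 2) * h0
  rw [Complex.cos_eq_cos_iff] at h1
  obtain ⟨k, hk⟩ := h1
  apply h
  rcases hk with hk | hk
  · have := congrArg Complex.im hk
    simp at this
    exact this.symm
  · have := congrArg Complex.im hk
    simp at this
    exact this

lemma cosHalf_ne {b η : ℝ} (hη : 0 < η) : Complex.cos ((-b + η * Complex.I) / 2) ≠ 0 := by
  intro h
  have h1 := sin_zero_of h
  have := sinNe (b := b) hη
  rw [h1] at this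
  simp at this

lemma Hint_ne (A : ℕ) {M d : ℕ} {b η : ℝ} (hη : 0 < η) :
    Hint A M d (-b + η * Complex.I) ≠ 0 := by
  unfold Hint
  apply div_ne_zero
  · apply mul_ne_zero
    · apply mul_ne_zero
      · apply mul_ne_zero (Complex.exp_ne_zero _)
        apply RH_ne
        simp
        exact hη.ne'
      · exact sinNe hη
    · exact cosHalf_ne hη
  · have := sinRNe M (b := b) hη
    intro h
    apply this
    rw [h]
    simp

/-- pointwise estimate with bounded error -/
lemma pbfH (hRS : S_HRS) (A : ℕ) {h H : ℝ} (hh : 0 < h) :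
    ∃ C : ℝ, 0 ≤ C ∧ ∀ M d : ℕ, d < M → ∀ b η : ℝ, h ≤ η → η ≤ H →
      |Real.log ‖Hint A M d (-b + η * Complex.I)‖ - Rh M / (4 * π) *
        (4 * ((A : ℝ) / 2 * b - π) * η +
        (Lf η (b + 2 * π * d / Rh M) - Lf η (b - 2 * π * d / Rh M)))| ≤ C := by
  obtain ⟨C0, hC0⟩ := hRS h H hh
  set C1 := |Real.log (2 * Real.sinh h)| + |Real.log (2 * Real.cosh H)| with hC1
  set C2 := Real.log 2 + |Real.log (1 - Real.exp (-h))| with hC2
  have hl2 : 0 ≤ Real.log 2 := Real.log_nonneg (by norm_num)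
  refine ⟨|C0| + C1 + C2, by positivity, ?_⟩
  intro M d hd b η h1 h2
  have hη : 0 < η := lt_of_lt_of_le hh h1
  have hR := Rh_pos M
  have hRRne : RH M d (-b + η * Complex.I) * (2 * Complex.cos ((-b + η * Complex.I) / 2)) ≠ 0 := by
    apply mul_ne_zero
    · apply RH_ne
      simp
      exact hη.ne'
    · exact mul_ne_zero two_ne_zero (cosHalf_ne hη)
  have hsin := norm_two_sin b η hη
  have hcos := norm_sinR M b η hη
  have hsne := sinNe (b := b) hη
  have hcne := sinRNe M (b := b) hη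
  have hlog : Real.log ‖Hint A M d (-b + η * Complex.I)‖ =
      A * Rh M * b * η / (2 * π) + Real.log ‖RH M d (-b + η * Complex.I) *
        (2 * Complex.cos ((-b + η * Complex.I) / 2))‖ +
        Real.log ‖2 * Complex.sin (-b + η * Complex.I)‖ -
        Real.log ‖2 * Complex.sin (Rh M * (-b + η * Complex.I + π))‖ := by
    have e : Hint A M d (-b + η * Complex.I) =
        Complex.exp (Complex.I * A * Rh M * (-b + η * Complex.I) ^ 2 / (4 * π)) *
        (RH M d (-b + η * Complex.I) * (2 * Complex.cos ((-b + η * Complex.I) / 2))) *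
        (2 * Complex.sin (-b + η * Complex.I)) /
        (2 * Complex.sin (Rh M * (-b + η * Complex.I + π))) := by
      unfold Hint
      have : Complex.sin (Rh M * (-b + η * Complex.I + π)) ≠ 0 := by
        intro h
        apply hcne
        rw [h]
        simp
      field_simp
    rw [e, norm_div, norm_mul, norm_mul, norm_expoH]
    rw [Real.log_div (mul_ne_zero (mul_ne_zero (Real.exp_ne_zero _) (norm_ne_zero_iff.2 hRRne))
      (norm_ne_zero_iff.2 hsne)) (norm_ne_zero_iff.2 hcne),
      Real.log_mul (mul_ne_zero (Real.exp_ne_zero _) (norm_ne_zero_iff.2 hRRne))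
        (norm_ne_zero_iff.2 hsne),
      Real.log_mul (Real.exp_ne_zero _) (norm_ne_zero_iff.2 hRRne), Real.log_exp]
  have hRR := hC0 M d hd b η h1 h2
  -- sine
  have hsh : 0 < 2 * Real.sinh h := by
    have := Real.sinh_pos_iff.2 hh
    linarith
  have hs1 : Real.log (2 * Real.sinh h) ≤ Real.log ‖2 * Complex.sin (-b + η * Complex.I)‖ := by
    apply Real.log_le_log hsh
    have : Real.sinh h ≤ Real.sinh η := Real.sinh_le_sinh.2 h1
    linarith [hsin.1]
  have hs2 : Real.log ‖2 * Complex.sin (-b + η * Complex.I)‖ ≤ Real.log (2 * Real.cosh H) := by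
    apply Real.log_le_log (norm_pos_iff.2 hsne)
    have : Real.cosh η ≤ Real.cosh H := by
      apply Real.cosh_le_cosh.2
      rw [abs_of_pos hη, abs_of_pos (lt_of_lt_of_le hη h2)]
      exact h2
    linarith [hsin.2]
  have hs3 : |Real.log ‖2 * Complex.sin (-b + η * Complex.I)‖| ≤ C1 := by
    rw [abs_le]
    constructor
    · have := neg_abs_le (Real.log (2 * Real.sinh h))
      have := abs_nonneg (Real.log (2 * Real.cosh H))
      linarith
    · have := le_abs_self (Real.log (2 * Real.cosh H))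
      have := abs_nonneg (Real.log (2 * Real.sinh h))
      linarith
  -- denominator
  have hNη : h ≤ 2 * Rh M * η := by
    have : 1 ≤ 2 * Rh M := by
      unfold Rh
      have : (0 : ℝ) ≤ M := by positivity
      linarith
    nlinarith
  have he1 : Real.exp (-h) < 1 := by
    rw [Real.exp_lt_one_iff]; linarith
  have he2 : Real.exp (-(2 * Rh M * η)) ≤ Real.exp (-h) := Real.exp_le_exp.2 (by linarith)
  have hc1 : Rh M * η + Real.log (1 - Real.exp (-h)) ≤
      Real.log ‖2 * Complex.sin (Rh M * (-b + η * Complex.I + π))‖ := by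
    have h3 : Rh M * η + Real.log (1 - Real.exp (-h)) =
        Real.log (Real.exp (Rh M * η) * (1 - Real.exp (-h))) := by
      rw [Real.log_mul (Real.exp_ne_zero _) (by linarith), Real.log_exp]
    rw [h3]
    apply Real.log_le_log
    · exact mul_pos (Real.exp_pos _) (by linarith)
    · refine le_trans ?_ hcos.1
      apply mul_le_mul_of_nonneg_left _ (Real.exp_pos _).le
      linarith
  have hc2 : Real.log ‖2 * Complex.sin (Rh M * (-b + η * Complex.I + π))‖ ≤
      Rh M * η + Real.log 2 := by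
    have h3 : Rh M * η + Real.log 2 = Real.log (Real.exp (Rh M * η) * 2) := by
      rw [Real.log_mul (Real.exp_ne_zero _) (by norm_num), Real.log_exp]
    rw [h3]
    exact Real.log_le_log (norm_pos_iff.2 hcne) hcos.2
  have hc3 : |Real.log ‖2 * Complex.sin (Rh M * (-b + η * Complex.I + π))‖ - Rh M * η| ≤ C2 := by
    rw [abs_le]
    constructor
    · have := neg_abs_le (Real.log (1 - Real.exp (-h)))
      linarith
    · have := abs_nonneg (Real.log (1 - Real.exp (-h)))
      linarith
  rw [hlog]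
  have hpi : (π : ℝ) ≠ 0 := Real.pi_ne_zero
  have hid : A * Rh M * b * η / (2 * π) + Real.log ‖RH M d (-b + η * Complex.I) *
        (2 * Complex.cos ((-b + η * Complex.I) / 2))‖ +
        Real.log ‖2 * Complex.sin (-b + η * Complex.I)‖ -
        Real.log ‖2 * Complex.sin (Rh M * (-b + η * Complex.I + π))‖ -
      Rh M / (4 * π) * (4 * ((A : ℝ) / 2 * b - π) * η +
        (Lf η (b + 2 * π * d / Rh M) - Lf η (b - 2 * π * d / Rh M))) =
      (Real.log ‖RH M d (-b + η * Complex.I) * (2 * Complex.cos ((-b + η * Complex.I) / 2))‖ -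
        Rh M / (4 * π) * (Lf η (b + 2 * π * d / Rh M) - Lf η (b - 2 * π * d / Rh M))) +
      Real.log ‖2 * Complex.sin (-b + η * Complex.I)‖ -
      (Real.log ‖2 * Complex.sin (Rh M * (-b + η * Complex.I + π))‖ - Rh M * η) := by
    generalize Real.log ‖RH M d (-b + η * Complex.I) *
        (2 * Complex.cos ((-b + η * Complex.I) / 2))‖ = X1
    generalize Real.log ‖2 * Complex.sin (-b + η * Complex.I)‖ = X2
    generalize Real.log ‖2 * Complex.sin (Rh M * (-b + η * Complex.I + π))‖ = X3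
    generalize Lf η (b + 2 * π * d / Rh M) = X4
    generalize Lf η (b - 2 * π * d / Rh M) = X5
    field_simp
    ring
  rw [hid]
  have t1 := abs_add_le ((Real.log ‖RH M d (-b + η * Complex.I) *
        (2 * Complex.cos ((-b + η * Complex.I) / 2))‖ -
        Rh M / (4 * π) * (Lf η (b + 2 * π * d / Rh M) - Lf η (b - 2 * π * d / Rh M))) +
      Real.log ‖2 * Complex.sin (-b + η * Complex.I)‖)
      (-(Real.log ‖2 * Complex.sin (Rh M * (-b + η * Complex.I + π))‖ - Rh M * η))
  have t2 := abs_add_le (Real.log ‖RH M d (-b + η * Complex.I) *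
        (2 * Complex.cos ((-b + η * Complex.I) / 2))‖ -
        Rh M / (4 * π) * (Lf η (b + 2 * π * d / Rh M) - Lf η (b - 2 * π * d / Rh M)))
      (Real.log ‖2 * Complex.sin (-b + η * Complex.I)‖)
  rw [← sub_eq_add_neg, abs_neg] at t1
  have t3 := le_abs_self C0
  linarith

/-- pointwise estimate, exponential accuracy -/
lemma pbH (hRS : S_HRS) (hB : S_HBRF) (A : ℕ) {h H ε : ℝ} (hh : 0 < h) (hε : 0 < ε) :
    ∀ᶠ M : ℕ in atTop, ∀ n d : ℕ, n + d + 1 = M → ∀ b η : ℝ, h ≤ η → η ≤ H →
      |2 * Real.log ‖brf (vh M) n‖ + Real.log ‖Hint A M d (-b + η * Complex.I)‖ -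
        Rh M / (4 * π) * pot ((A : ℝ) / 2) (2 * π * d / Rh M) b η| ≤ ε * M := by
  obtain ⟨C, hC0, hC⟩ := pbfH hRS A (h := h) (H := H) hh
  have h1 := hB (ε / 4) (by positivity)
  have h2 : ∀ᶠ M : ℕ in atTop, C ≤ ε / 2 * M := by
    have : Tendsto (fun M : ℕ => ε / 2 * (M : ℝ)) atTop atTop :=
      Tendsto.const_mul_atTop (by positivity) tendsto_natCast_atTop_atTop
    exact this.eventually_ge_atTop C
  filter_upwards [h1, h2, eventually_gt_atTop 0] with M hb hCN hM n d hnd b η g1 g2
  have k1 := hb n d hnd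
  have k2 := hC M d (by omega) b η g1 g2
  have hR := Rh_pos M
  have hpi : (π : ℝ) ≠ 0 := Real.pi_ne_zero
  have hid : 2 * Real.log ‖brf (vh M) n‖ + Real.log ‖Hint A M d (-b + η * Complex.I)‖ -
        Rh M / (4 * π) * pot ((A : ℝ) / 2) (2 * π * d / Rh M) b η =
      2 * (Real.log ‖brf (vh M) n‖ - Rh M / π * GapVol.lob (π * d / Rh M)) +
      (Real.log ‖Hint A M d (-b + η * Complex.I)‖ - Rh M / (4 * π) *
        (4 * ((A : ℝ) / 2 * b - π) * η +
        (Lf η (b + 2 * π * d / Rh M) - Lf η (b - 2 * π * d / Rh M)))) := by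
    unfold pot
    have : 2 * π * d / Rh M / 2 = π * d / Rh M := by ring
    rw [this]
    field_simp
    ring
  rw [hid]
  have t1 := abs_add_le (2 * (Real.log ‖brf (vh M) n‖ - Rh M / π * GapVol.lob (π * d / Rh M)))
    (Real.log ‖Hint A M d (-b + η * Complex.I)‖ - Rh M / (4 * π) * (4 * ((A : ℝ) / 2 * b - π) * η +
        (Lf η (b + 2 * π * d / Rh M) - Lf η (b - 2 * π * d / Rh M))))
  rw [abs_mul, abs_of_pos (by norm_num : (0 : ℝ) < 2)] at t1
  linarith

/-- upper bound form -/
lemma pbH_le (hRS : S_HRS) (hB : S_HBRF) (A : ℕ) {h H ε : ℝ} (hh : 0 < h) (hε : 0 < ε) :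
    ∀ᶠ M : ℕ in atTop, ∀ n d : ℕ, n + d + 1 = M → ∀ b η : ℝ, h ≤ η → η ≤ H →
      ‖brf (vh M) n‖ ^ 2 * ‖Hint A M d (-b + η * Complex.I)‖ ≤
        Real.exp (Rh M / (4 * π) * pot ((A : ℝ) / 2) (2 * π * d / Rh M) b η + ε * M) := by
  filter_upwards [pbH hRS hB A (h := h) (H := H) hh hε] with M hM n d hnd b η g1 g2
  have h1 := (abs_le.1 (hM n d hnd b η g1 g2)).2
  have hb : brf (vh M) n ≠ 0 := brf_vh_ne (by omega)
  have hF := Hint_ne A (M := M) (d := d) (b := b) (lt_of_lt_of_le hh g1)
  rw [← Real.log_le_iff_le_exp (by positivity), Real.log_mul (by positivity) (by positivity),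
    Real.log_pow]
  push_cast
  linarith

lemma pbH_ge (hRS : S_HRS) (hB : S_HBRF) (A : ℕ) {h H ε : ℝ} (hh : 0 < h) (hε : 0 < ε) :
    ∀ᶠ M : ℕ in atTop, ∀ n d : ℕ, n + d + 1 = M → ∀ b η : ℝ, h ≤ η → η ≤ H →
      Real.exp (Rh M / (4 * π) * pot ((A : ℝ) / 2) (2 * π * d / Rh M) b η - ε * M) ≤
      ‖brf (vh M) n‖ ^ 2 * ‖Hint A M d (-b + η * Complex.I)‖ := by
  filter_upwards [pbH hRS hB A (h := h) (H := H) hh hε] with M hM n d hnd b η g1 g2
  have h1 := (abs_le.1 (hM n d hnd b η g1 g2)).1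
  have hb : brf (vh M) n ≠ 0 := brf_vh_ne (by omega)
  have hF := Hint_ne A (M := M) (d := d) (b := b) (lt_of_lt_of_le hh g1)
  rw [← Real.le_log_iff_exp_le (by positivity), Real.log_mul (by positivity) (by positivity),
    Real.log_pow]
  push_cast
  linarith

end Pool.Agent.W707.TV
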