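import Pool.Agent.W707.TV.Pt

/-! Upper bound for the coefficients. -/

set_option autoImplicit false
set_option maxHeartbeats 4000000

namespace Pool.Agent.W707.TV

open Filter Finset EvenVol Pool.Agent.H112R4.VL Pool.Agent.W709.VC
open scoped Real Topology

lemma Rh_le (M : ℕ) : (M : ℝ) ≤ Rh M := by
  unfold Rh
  linarith

/-- the coefficient as a path integral -/
lemma Dn_path (A : ℕ) {M n d : ℕ} (hnd : n + d + 1 = M)
    {h η b : ℝ} (hh : 0 < h) (hη : h ≤ η) (hb : |b| ≤ π) :
    Dn A M n = ‖path (fun z => ((‖brf (vh M) n‖ ^ 2 : ℝ) : ℂ) * Hint A M d z) h η b‖ /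
      (2 * π) := by
  have hp := Real.pi_pos
  have h1 := hgam A M n (by omega) h hh
  have hd : M - 1 - n = d := by omega
  rw [hd, hpath A M d (by omega) h η b hh hη hb] at h1
  rw [path_mul]
  unfold Dn
  rw [h1, norm_mul, norm_mul, Complex.norm_real, Real.norm_eq_abs, abs_of_nonneg (by positivity)]
  simp only [norm_neg, Complex.norm_ofNat]
  field_simp
  norm_num

/-- upper bound -/
theorem hup (hRS : S_HRS) (hB : S_HBRF) (hV : S_HVERT)
    (hM : S_MAX) (hN : S_NEG) (hU : S_VUP) (hVC : S_VCONV) (hVE : S_VEND) (hT : S_TEN)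
    (hRe : S_REAL) : S_HUP := by
  intro A α₀ b₀ η hA hC ε hε
  have hp := Real.pi_pos
  have hA' : (4 : ℝ) ≤ A := by exact_mod_cast hA
  set m : ℝ := (A : ℝ) / 2 with hm
  have hm2 : 2 ≤ m := by rw [hm]; linarith
  have hm0 : 0 < m := by linarith
  set V := pot m α₀ b₀ η with hVd
  have hV0 : 0 ≤ V := by
    have := vol_ge hM hT hm2 hC
    have := lob6_pos
    linarith
  have hη := hC.hη
  set h : ℝ := min η (ε / (8 * (m + m + 2))) with hhd
  have hh : 0 < h := lt_min hη (by positivity)
  have hhη : h ≤ η := min_le_left _ _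
  have hhε : h * (8 * (m + m + 2)) ≤ ε := by
    have := min_le_right η (ε / (8 * (m + m + 2)))
    rw [← hhd, le_div_iff₀ (by positivity)] at this
    exact this
  have hmh : 0 < m * h := by positivity
  set K : ℝ := (Real.sinh h * h + 1 * (2 * π) + 1 * η + 1 * (2 * π) + Real.sinh η * η) / (2 * π)
    with hK
  have hsh : 0 ≤ Real.sinh h := Real.sinh_nonneg_iff.2 hh.le
  have hsη : 0 ≤ Real.sinh η := Real.sinh_nonneg_iff.2 hη.le
  have e1 := pbH_le hRS hB A (h := h) (H := η) hh (show 0 < ε / 4 by positivity)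
  have e2 := hV A (ε / 4) (by positivity)
  have e4 : ∀ᶠ M : ℕ in atTop, K * Real.exp (V / (8 * π)) ≤ Real.exp (ε / 2 * M) := by
    have : Tendsto (fun N : ℕ => Real.exp (ε / 2 * (N : ℝ))) atTop atTop :=
      Real.tendsto_exp_atTop.comp
        (Tendsto.const_mul_atTop (by positivity) tendsto_natCast_atTop_atTop)
    exact this.eventually_ge_atTop _
  filter_upwards [e1, e2, e4, eventually_ge_atTop 2] with M h1 h2 h4 hM2 n hn hs
  have hMp : (0 : ℝ) < M := by
    have : 0 < M := by omega
    exact_mod_cast this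
  have hMle := Rh_le M
  have hR := Rh_pos M
  have hM1 : (1 : ℝ) ≤ M := by
    have : 1 ≤ M := by omega
    exact_mod_cast this
  have hR2 : Rh M ≤ 2 * M := by
    unfold Rh
    linarith
  obtain ⟨d, hd⟩ : ∃ d, n + d + 1 = M := ⟨M - 1 - n, by omega⟩
  set α : ℝ := 2 * π * d / Rh M with hα
  have hα0 : 0 ≤ α := by positivity
  have hαπ : α ≤ π := by
    rw [hα, div_le_iff₀ hR]
    have : 2 * (d : ℝ) ≤ M := by
      have : 2 * d ≤ M := by omega
      exact_mod_cast this
    nlinarith
  set b := min (π / m) (π - α) with hb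
  have hpm : 0 < π / m := by positivity
  have hb0 : 0 ≤ b := le_min hpm.le (by linarith)
  have hbπ : b ≤ π := le_trans (min_le_right _ _) (by linarith)
  rw [Dn_path A hd hh hhη (b := b) (by rw [abs_of_nonneg hb0]; exact hbπ)]
  set E := Real.exp (Rh M / (4 * π) * V + ε / 2 * M) with hE
  have hE0 : 0 < E := Real.exp_pos _
  have hnorm : ∀ z : ℂ, ‖((‖brf (vh M) n‖ ^ 2 : ℝ) : ℂ) * Hint A M d z‖ =
      ‖brf (vh M) n‖ ^ 2 * ‖Hint A M d z‖ := by
    intro z
    rw [norm_mul, Complex.norm_real, Real.norm_eq_abs, abs_of_nonneg (by positivity)]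
  have hVN : 0 ≤ Rh M / (4 * π) * V := by positivity
  have hAm : (A : ℝ) = 2 * m := by rw [hm]; ring
  have key := path_le (f := fun z => ((‖brf (vh M) n‖ ^ 2 : ℝ) : ℂ) * Hint A M d z) hh.le hhη
    (b := b) (by linarith) hbπ (B1 := Real.sinh h * E) (B2 := E) (B3 := E) (B4 := E)
    (B5 := Real.sinh η * E) ?_ ?_ ?_ ?_ ?_
  · rw [div_le_iff₀ (by positivity)]
    refine le_trans key ?_
    have hsplit : Real.exp (M / (4 * π) * V + ε * M) * Real.exp (V / (8 * π)) =
        E * Real.exp (ε / 2 * M) := by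
      rw [hE, ← Real.exp_add, ← Real.exp_add]
      congr 1
      unfold Rh
      field_simp
      ring
    have hfin : Real.sinh h * E * h + E * (π - b) + E * (η - h) + E * (π + b) +
        Real.sinh η * E * η ≤ E * (K * (2 * π)) := by
      rw [hK, div_mul_cancel₀ _ (by positivity)]
      nlinarith
    refine le_trans hfin ?_
    have h5 : K * (2 * π) * Real.exp (V / (8 * π)) ≤ Real.exp (ε / 2 * M) * (2 * π) := by
      calc K * (2 * π) * Real.exp (V / (8 * π)) = (K * Real.exp (V / (8 * π))) * (2 * π) := by ring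
        _ ≤ _ := mul_le_mul_of_nonneg_right h4 (by positivity)
    have h6 : E * (K * (2 * π)) * Real.exp (V / (8 * π)) ≤
        Real.exp (M / (4 * π) * V + ε * M) * (2 * π) * Real.exp (V / (8 * π)) := by
      calc E * (K * (2 * π)) * Real.exp (V / (8 * π)) =
          E * (K * (2 * π) * Real.exp (V / (8 * π))) := by ring
        _ ≤ E * (Real.exp (ε / 2 * M) * (2 * π)) := mul_le_mul_of_nonneg_left h5 hE0.le
        _ = (Real.exp (M / (4 * π) * V + ε * M) * Real.exp (V / (8 * π))) * (2 * π) := by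
          rw [hsplit]
          ring
        _ = _ := by ring
    exact le_of_mul_le_mul_right h6 (Real.exp_pos _)
  · intro y hy hy'
    rw [hnorm]
    refine le_trans (h2 n d hd y hy).2 ?_
    have hs1 : Real.sinh y ≤ Real.sinh h := Real.sinh_le_sinh.2 hy'
    have hs0 : 0 ≤ Real.sinh y := Real.sinh_nonneg_iff.2 hy
    apply mul_le_mul hs1 _ (Real.exp_pos _).le hsh
    apply Real.exp_le_exp.2
    have : m * y ≤ m * h := mul_le_mul_of_nonneg_left hy' hm0.le
    have h5 : (A : ℝ) * Rh M * y / 2 ≤ ε / 4 * M := by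
      rw [hAm]
      have e : 2 * m * Rh M * y / 2 = m * y * Rh M := by ring
      rw [e]
      calc m * y * Rh M ≤ m * y * (2 * M) := by
            apply mul_le_mul_of_nonneg_left hR2
            positivity
        _ = (2 * (m * y)) * M := by ring
        _ ≤ _ := by
          apply mul_le_mul_of_nonneg_right _ hMp.le
          nlinarith
    linarith
  · intro x hx hx'
    rw [hnorm]
    refine le_trans (h1 n d hd x h le_rfl hhη) ?_
    apply Real.exp_le_exp.2
    have h5 := u1 hM hN hU hVC hVE hT hRe hm2 hC hα0 hαπ hh hhη hx hx'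
    have h6 : Rh M / (4 * π) * pot m α x h ≤ Rh M / (4 * π) * (V + (2 * π + 4 * π * m) * h) :=
      mul_le_mul_of_nonneg_left h5 (by positivity)
    have h7 : Rh M / (4 * π) * (V + (2 * π + 4 * π * m) * h) =
        Rh M / (4 * π) * V + (1 / 2 + m) * h * Rh M := by
      field_simp
      ring
    have h8 : (1 / 2 + m) * h * 2 ≤ ε / 4 := by nlinarith
    have h9 : (1 / 2 + m) * h * Rh M ≤ ε / 4 * M := by
      calc (1 / 2 + m) * h * Rh M ≤ (1 / 2 + m) * h * (2 * M) := by
            apply mul_le_mul_of_nonneg_left hR2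
            positivity
        _ = ((1 / 2 + m) * h * 2) * M := by ring
        _ ≤ _ := mul_le_mul_of_nonneg_right h8 hMp.le
    linarith
  · intro y hy hy'
    rw [hnorm]
    refine le_trans (h1 n d hd b y hy hy') ?_
    apply Real.exp_le_exp.2
    have h5 := u2 hM hN hU hVC hVE hT hm2 hC hα0 hαπ hh hy hy'
    have h6 : Rh M / (4 * π) * pot m α b y ≤ Rh M / (4 * π) * (V + 2 * π * h) :=
      mul_le_mul_of_nonneg_left h5 (by positivity)
    have h7 : Rh M / (4 * π) * (V + 2 * π * h) = Rh M / (4 * π) * V + 1 / 2 * h * Rh M := by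
      field_simp
      ring
    have h8 : 1 / 2 * h * 2 ≤ ε / 4 := by nlinarith
    have h9 : 1 / 2 * h * Rh M ≤ ε / 4 * M := by
      calc 1 / 2 * h * Rh M ≤ 1 / 2 * h * (2 * M) := by
            apply mul_le_mul_of_nonneg_left hR2
            positivity
        _ = (1 / 2 * h * 2) * M := by ring
        _ ≤ _ := mul_le_mul_of_nonneg_right h8 hMp.le
    linarith
  · intro x hx hx'
    rw [hnorm]
    refine le_trans (h1 n d hd x η hhη le_rfl) ?_
    apply Real.exp_le_exp.2
    have h5 := u3 hM hN hm2 hC hα0 hαπ hx hx'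
    have h6 : Rh M / (4 * π) * pot m α x η ≤ Rh M / (4 * π) * V :=
      mul_le_mul_of_nonneg_left h5 (by positivity)
    have : 0 ≤ ε / 4 * M := by positivity
    linarith
  · intro y hy hy'
    rw [hnorm]
    refine le_trans (h2 n d hd y hy).1 ?_
    have hs1 : Real.sinh y ≤ Real.sinh η := Real.sinh_le_sinh.2 hy'
    have hs0 : 0 ≤ Real.sinh y := Real.sinh_nonneg_iff.2 hy
    apply mul_le_mul hs1 _ (Real.exp_pos _).le hsη
    apply Real.exp_le_exp.2
    have : 0 ≤ ε / 4 * M := by positivity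
    linarith

end Pool.Agent.W707.TV
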